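import Pool.Agent.H84.NT.THNb

/-!
# Thin near ties: assembly
-/

open MeasureTheory ProbabilityTheory
open scoped ENNReal

namespace Pool.Agent.H84.NT5.TH

open Pool.Agent.H99.NS Pool.Agent.H22.LPP Pool.Agent.H95.INS Pool.Agent.H76.ND Pool.Agent.H95.ND
open Pool.Agent.H84.NT hiding lv two_lv
open Pool.Agent.H84.NT5
open Pool.Agent.H3.NT.F (lvp two_lv' reachK)

theorem kp_mono {C C' K0 : ℝ} {d : ℕ} (h : C ≤ C') : kp C K0 d ≤ kp C' K0 d := by
  unfold kp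
  have h1 : (0 : ℝ) ≤ K0 ^ 4 * (101 / 100) ^ (4 * d) := by positivity
  have := mul_le_mul_of_nonneg_right h h1
  calc C * K0 ^ 4 * (101 / 100) ^ (4 * d) = C * (K0 ^ 4 * (101 / 100) ^ (4 * d)) := by ring
    _ ≤ C' * (K0 ^ 4 * (101 / 100) ^ (4 * d)) := this
    _ = _ := by ring

theorem OReg_mono {q κ κ' : ℝ} {X : ℤ} {a a1 K : ℕ} {j : ℤ} {ω : Env} (h : κ ≤ κ')
    (hO : OReg q κ X a a1 K j ω) : OReg q κ' X a a1 K j ω := by
  have hl : ∀ s t : ℤ, LBd (dr q κ a X) (shiftE (j, LK K ω j) ω) s t →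
      LBd (dr q κ' a X) (shiftE (j, LK K ω j) ω) s t := by
    intro s t h1 x y h2 h3 h4
    refine le_trans ?_ (h1 x y h2 h3 h4)
    have h5 : (0 : ℝ) ≤ 4 ^ a * (1 + max |(x : ℝ)| |(y : ℝ)| / 16 ^ a) := by positivity
    have h6 := mul_le_mul_of_nonneg_right h h5
    show par q (s, x) (t, y) - κ' * 4 ^ a * (1 + max |(x : ℝ)| |(y : ℝ)| / (((16 ^ a : ℤ)) : ℝ)) ≤
      par q (s, x) (t, y) - κ * 4 ^ a * (1 + max |(x : ℝ)| |(y : ℝ)| / (((16 ^ a : ℤ)) : ℝ))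
    push_cast
    linarith
  refine ⟨?_, ?_, ?_⟩
  · intro s t g h1 h2 h3 h4 h5 h6
    refine le_trans (hO.u s t g h1 h2 h3 h4 h5 h6) ?_
    have h7 : (0 : ℝ) ≤ 4 ^ a * (1 + max |(g s : ℝ)| |(g t : ℝ)| / 16 ^ a) := by positivity
    have h8 := mul_le_mul_of_nonneg_right h h7
    show sp q (8 * ((dr q κ a X).n : ℝ) / 200) s t g +
        κ * 4 ^ a * (1 + max |(g s : ℝ)| |(g t : ℝ)| / (((16 ^ a : ℤ)) : ℝ)) ≤
      sp q (8 * ((dr q κ a X).n : ℝ) / 200) s t g +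
        κ' * 4 ^ a * (1 + max |(g s : ℝ)| |(g t : ℝ)| / (((16 ^ a : ℤ)) : ℝ))
    push_cast
    linarith
  · exact ⟨hl _ _ hO.l.a, hl _ _ hO.l.b, hl _ _ hO.l.c, hl _ _ hO.l.d, hl _ _ hO.l.e⟩
  · intro g t1 h1 h2 h3
    obtain ⟨e1, e2, e3, e4⟩ := hO.d g t1 h1 h2 h3
    have h16 : (0 : ℝ) < 16 ^ a := by positivity
    have h4 : (0 : ℝ) < 4 ^ a := by positivity
    have h5 := mul_le_mul_of_nonneg_right h h16.le
    have h6 := mul_le_mul_of_nonneg_right h h4.le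
    exact ⟨fun t ht => (e1 t ht).trans h5, e2.trans h5, e3.trans h5, by linarith⟩

/-! ### Numerics -/

theorem num_1 (u : ℕ) :
    (16 : ℝ) ^ u * (2 * ((8 * 16 ^ (2 * u + 1) + 3) * Real.exp (-(64 ^ u)))) ≤
      1572 * (1 / 64) ^ u := by
  have h1 := Real.pow_div_factorial_le_exp ((64 : ℝ) ^ u) (by positivity) 3
  have h2 : ((Nat.factorial 3 : ℕ) : ℝ) = 6 := by norm_num [Nat.factorial]
  rw [h2] at h1
  have h5 : (0 : ℝ) < Real.exp (64 ^ u) := Real.exp_pos _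
  rw [Real.exp_neg, one_div, inv_pow]
  have h6 : (0 : ℝ) < 64 ^ u := by positivity
  have e1 : (16 : ℝ) ^ (2 * u + 1) = 16 * (16 ^ u) ^ 2 := by rw [pow_succ, mul_comm 2 u, pow_mul]; ring
  have e2 : (64 : ℝ) ^ u = 4 ^ u * 16 ^ u := by rw [← mul_pow]; norm_num
  have e3 : (16 : ℝ) ^ u = 4 ^ u * 4 ^ u := by rw [← mul_pow]; norm_num
  have h7 : (1 : ℝ) ≤ 4 ^ u := one_le_pow₀ (by norm_num)
  have h8 : (16 : ℝ) ^ u * (2 * (8 * 16 ^ (2 * u + 1) + 3)) * 64 ^ u ≤ 262 * (64 ^ u) ^ 3 := by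
    rw [e1, e2, e3]
    set y := (4 : ℝ) ^ u
    have h9 : y ^ 2 * (2 * (8 * (16 * (y * y) ^ 2) + 3)) * (y * (y * y)) =
        256 * y ^ 9 + 6 * y ^ 5 := by ring
    have h10 : y ^ 5 ≤ y ^ 9 := pow_le_pow_right₀ h7 (by norm_num)
    have h11 : (y * (y * y)) ^ 3 = y ^ 9 := by ring
    have h12 : y * y * (2 * (8 * (16 * (y * y) ^ 2) + 3)) * (y * (y * y)) =
        256 * y ^ 9 + 6 * y ^ 5 := by ring
    rw [h12, h11]
    linarith
  have h13 : (16 : ℝ) ^ u * (2 * ((8 * 16 ^ (2 * u + 1) + 3) * (Real.exp (64 ^ u))⁻¹)) =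
      (16 ^ u * (2 * (8 * 16 ^ (2 * u + 1) + 3))) / Real.exp (64 ^ u) := by
    rw [div_eq_mul_inv]; ring
  rw [h13, ← div_eq_mul_inv, div_le_div_iff₀ h5 h6]
  calc (16 : ℝ) ^ u * (2 * (8 * 16 ^ (2 * u + 1) + 3)) * 64 ^ u ≤ 262 * (64 ^ u) ^ 3 := h8
    _ = 1572 * ((64 ^ u) ^ 3 / 6) := by ring
    _ ≤ 1572 * Real.exp (64 ^ u) := by linarith

theorem num_2 (u : ℕ) : Real.exp (-(10 * (u : ℝ))) ≤ (1 / 64) ^ u := by
  have h1 : (64 : ℝ) ≤ Real.exp 10 := by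
    have h2 := Real.add_one_le_exp (9 : ℝ)
    have h3 : Real.exp 10 = Real.exp 5 * Real.exp 5 := by rw [← Real.exp_add]; norm_num
    have h4 := Real.pow_div_factorial_le_exp (10 : ℝ) (by positivity) 3
    have h5 : ((Nat.factorial 3 : ℕ) : ℝ) = 6 := by norm_num [Nat.factorial]
    rw [h5] at h4
    linarith
  have h4 : Real.exp (-(10 * (u : ℝ))) = (Real.exp 10)⁻¹ ^ u := by
    rw [← Real.exp_neg, ← Real.exp_nat_mul]; congr 1; ring
  rw [h4, one_div]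
  exact pow_le_pow_left₀ (by positivity) (inv_anti₀ (by norm_num) h1) u

theorem num_3 {cR : ℝ} (hcR : 0 < cR) (K u : ℕ) (hu : u ≤ K) :
    ((64 ^ u * (2 * 64 ^ K + 1) : ℕ) : ℝ) * Real.exp (-Real.exp (cR * K)) ≤
      3 * Real.exp (50 / cR ^ 2) * Real.exp (-(K : ℝ)) := by
  push_cast
  have h1 : (64 : ℝ) ^ u ≤ 64 ^ K := pow_le_pow_right₀ (by norm_num) hu
  have h2 : (1 : ℝ) ≤ 64 ^ K := one_le_pow₀ (by norm_num)
  have h3 : (64 : ℝ) ^ u * (2 * 64 ^ K + 1) ≤ 3 * 4096 ^ K := by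
    have e : (4096 : ℝ) ^ K = 64 ^ K * 64 ^ K := by rw [← mul_pow]; norm_num
    rw [e]
    calc (64 : ℝ) ^ u * (2 * 64 ^ K + 1) ≤ 64 ^ K * (2 * 64 ^ K + 64 ^ K) := by gcongr
      _ = _ := by ring
  have h4 : (4096 : ℝ) ≤ Real.exp 9 := by
    have h5 := Real.exp_one_gt_d9
    have h6 : Real.exp 9 = Real.exp 1 ^ 9 := by rw [← Real.exp_nat_mul]; norm_num
    rw [h6]
    calc (4096 : ℝ) ≤ 2.7 ^ 9 := by norm_num
      _ ≤ Real.exp 1 ^ 9 := pow_le_pow_left₀ (by norm_num) (by linarith) 9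
  have h5 : (4096 : ℝ) ^ K ≤ Real.exp (9 * K) := by
    calc (4096 : ℝ) ^ K ≤ (Real.exp 9) ^ K := pow_le_pow_left₀ (by norm_num) h4 K
      _ = _ := by rw [← Real.exp_nat_mul]; congr 1; ring
  have h6 : 10 * (K : ℝ) - Real.exp (cR * K) ≤ 50 / cR ^ 2 := by
    have h7 := Real.pow_div_factorial_le_exp (cR * K) (by positivity) 2
    have h8 : ((Nat.factorial 2 : ℕ) : ℝ) = 2 := by norm_num [Nat.factorial]
    rw [h8] at h7
    have h9 : 10 * (K : ℝ) ≤ (cR * K) ^ 2 / 2 + 50 / cR ^ 2 := by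
      have h10 : 0 ≤ (cR * K - 10 / cR) ^ 2 := sq_nonneg _
      have h11 : (cR * K - 10 / cR) ^ 2 = (cR * K) ^ 2 - 20 * K + 100 / cR ^ 2 := by
        field_simp
        ring
      have h12 : (100 : ℝ) / cR ^ 2 = 2 * (50 / cR ^ 2) := by ring
      linarith
    linarith
  calc (64 : ℝ) ^ u * (2 * 64 ^ K + 1) * Real.exp (-Real.exp (cR * K))
      ≤ 3 * 4096 ^ K * Real.exp (-Real.exp (cR * K)) := by gcongr
    _ ≤ 3 * Real.exp (9 * K) * Real.exp (-Real.exp (cR * K)) := by gcongr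
    _ = 3 * (Real.exp (10 * K - Real.exp (cR * K)) * Real.exp (-(K : ℝ))) := by
        rw [mul_assoc, ← Real.exp_add, ← Real.exp_add]
        congr 2
        ring
    _ ≤ 3 * (Real.exp (50 / cR ^ 2) * Real.exp (-(K : ℝ))) := by gcongr
    _ = _ := by ring

theorem num_E {c K : ℝ} : Real.exp (-Real.exp (c * K)) ≤ Real.exp (-(c * K)) := by
  apply Real.exp_le_exp.2
  have := Real.add_one_le_exp (c * K)
  linarith

theorem ofReal_div_sq {x P : ℝ} {p₀ : ℝ≥0∞} (hP : 0 < P) (h : p₀ = ENNReal.ofReal P) :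
    ENNReal.ofReal x / p₀ ^ 2 = ENNReal.ofReal (x / P ^ 2) := by
  rw [h, ← ENNReal.ofReal_pow hP.le, ENNReal.ofReal_div_of_pos (by positivity)]

open Classical in
theorem pf_THN (h_NUM : T_NUM) (h_E3 : T_E3) (h_MEA : T_MEA) (h_OR : T_OR) (h_ING : T_ING)
    (h_INT : T_INT) (h_PEI : T_PEI) (h_LGD : T_LGD) (h_GR : B_GR) (h_BLK : T_BLK)
    (h_DAC : T_DAC) (h_RRA : T_RRA) (h_SGB : T_SGB) (h_SWS : T_SWS) (h_MAR : T_MAR)
    (h_FIM : T_FIM) (h_LAM : B_LAM) : T_THN := by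
  classical
  intro q hq0 hq1 ⟨c, hcq, hK0, hA, hP1⟩ ⟨CG, hCG, hGRP⟩ hLG hRG hTP
  subst hcq
  obtain ⟨Cd, hCd, hBLK⟩ := h_BLK c.q CG hq0 hq1 hCG.le
  obtain ⟨ε, hε, hINT⟩ := h_INT h_PEI h_LGD h_GR Cd hCd.le
  obtain ⟨N0, hN0⟩ := exists_nat_ge (4 * Cd)
  set Cdd : ℤ := (N0 : ℤ) + 1 with hCdd
  have hCddR : (Cdd : ℝ) = (N0 : ℝ) + 1 := by rw [hCdd]; push_cast; ring
  have hCdd0 : 0 ≤ Cdd := by omega
  have hCdd2 : 4 * Cd ≤ (Cdd : ℝ) ^ 2 := by
    rw [hCddR]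
    have : (0 : ℝ) ≤ N0 := by positivity
    nlinarith
  have hCddR0 : (0 : ℝ) ≤ Cdd := by exact_mod_cast hCdd0
  obtain ⟨A, Ks, H, Y, p₀, k₀, hA40, hp₀, hk₀, hH1, hbody⟩ :=
    hLG ε ((Cdd : ℝ) + 2) hε (by linarith)
  obtain ⟨Cκ0, hCκ0, hOR⟩ := h_OR c.q hq0 hq1
  have hsg := sg_pos hq0 hq1
  obtain ⟨CP, cP, hCP, hcP, KP, hP⟩ := hP1
  obtain ⟨CR, cR, hCR, hcR, KR, hRGN⟩ := hRG
  obtain ⟨CT, cT, hCT, hcT, hTOPN⟩ := hTP
  have hING := h_ING c.q CG hGRP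
  obtain ⟨cN, sN, KN, uN, hcN, hNUM⟩ := h_NUM h_DAC c.q hq0 hq1 c.K0 (Cκ0 + (1 + sg c.q)) Cd Cdd A
    Ks ((Cdd : ℝ) + 2) H Y ε p₀ k₀ hK0 (by linarith) hCd hCdd0 hCdd2 le_rfl hA40 hH1 hk₀ hbody
  set P : ℝ := p₀.toReal with hPd
  set cc : ℝ := min (cT / 256) (min (min cR cP) 1) with hcc
  have hcc0 : 0 < cc := by rw [hcc]; positivity
  have hA0 : (0 : ℝ) < A := by
    have : (40 : ℝ) ≤ A := by exact_mod_cast hA40
    linarith
  set CC : ℝ := CR + CT + CP * 1574 + 16 * A / P ^ 2 +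
    12 * Real.exp (50 / cR ^ 2) * CR / P ^ 2 + 64 ^ uN with hCC
  have hCC0 : 0 < CC := by rw [hCC]; positivity
  refine ⟨CC, cc, min cN (1 / 100), sN + 8, KP + KR + KN + 400, hCC0, hcc0, by positivity, ?_⟩
  intro K a u j hKK hKa haK huK hj
  have huK1 : (u : ℝ) ≤ cN * K := by
    refine huK.trans (mul_le_mul_of_nonneg_right (min_le_left _ _) (by positivity))
  have huK2 : 100 * u ≤ K := by
    have h1 : (u : ℝ) ≤ 1 / 100 * K :=
      huK.trans (mul_le_mul_of_nonneg_right (min_le_right _ _) (by positivity))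
    have h2 : (100 : ℝ) * u ≤ K := by linarith
    exact_mod_cast h2
  rcases lt_or_ge u uN with huu | huu
  · refine le_trans prob_le_one ?_
    rw [← ENNReal.ofReal_one]
    apply ENNReal.ofReal_le_ofReal
    have h1 : (1 : ℝ) ≤ 64 ^ uN * (1 / 64) ^ u := by
      rw [one_div, inv_pow, ← div_eq_mul_inv, le_div_iff₀ (by positivity), one_mul]
      exact pow_le_pow_right₀ (by norm_num) huu.le
    have h2 : (64 : ℝ) ^ uN ≤ CC := by
      rw [hCC]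
      have : 0 ≤ CR + CT + CP * 1574 + 16 * A / P ^ 2 +
        12 * Real.exp (50 / cR ^ 2) * CR / P ^ 2 := by positivity
      linarith
    have h3 : (0 : ℝ) < (1 / 64) ^ u := by positivity
    calc (1 : ℝ) ≤ 64 ^ uN * (1 / 64) ^ u := h1
      _ ≤ CC * (1 / 64) ^ u := mul_le_mul_of_nonneg_right h2 h3.le
      _ ≤ _ := by
        apply mul_le_mul_of_nonneg_left _ hCC0.le
        have := Real.exp_pos (-(cc * 2 ^ (K - a)))
        have := Real.exp_pos (-(cc * (K : ℝ)))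
        linarith
  obtain ⟨b, rfl⟩ : ∃ b, a = b + u + 1 := ⟨a - u - 1, by omega⟩
  obtain ⟨Aa, N, nA, nP, nLO, nLG, nV, nX, nX4, nb⟩ :=
    hNUM K b u (by omega) hKa (by omega) huK1 huu
  have e1 : b + u + 1 - u - 1 = b := by omega
  have e2 : b + u + 1 - u = b + 1 := by omega
  rw [e1, e2]
  set D := dat c.q b A Ks ((Cdd : ℝ) + 2) H Y (20 * Aa * 16 ^ (b + u + 1)) with hD
  set κ := kp (Cκ0 + (1 + sg c.q)) c.K0 (2 * u) with hκ
  set Xa : ℤ := (Xf K - 16) * 16 ^ (b + u + 1) with hXa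
  set Da := dat c.q (b + u + 1) Aa κ κ (sg c.q * Aa ^ 2 / 4) (sg c.q * Aa ^ 2 / 4) Xa with hDa
  -- the probability `p₀`
  have hpH1 : pH D ≤ 1 := prob_le_one
  have hp₀1 : p₀ ≤ 1 := nP.trans hpH1
  have hp₀t : p₀ ≠ ∞ := ne_top_of_le_ne_top ENNReal.one_ne_top hp₀1
  have hPp : 0 < P := ENNReal.toReal_pos hp₀.ne' hp₀t
  have hPe : p₀ = ENNReal.ofReal P := (ENNReal.ofReal_toReal hp₀t).symm
  -- the top scale
  set Dt' : ℝ := (8 / 3) ^ (K - 2 - (b + u + 1)) / 64 with hDt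
  have hD1 : 1 ≤ Dt' := by
    rw [hDt, le_div_iff₀ (by norm_num)]
    have h1 : ((8 : ℝ) / 3) ^ 5 ≤ (8 / 3) ^ (K - 2 - (b + u + 1)) :=
      pow_le_pow_right₀ (by norm_num) (by omega)
    refine le_trans ?_ h1
    norm_num
  have hD2 : 64 * Dt' * (3 / 8) ^ (K - 2 - (b + u + 1)) ≤ 1 := by
    rw [hDt]
    have : (64 : ℝ) * ((8 / 3) ^ (K - 2 - (b + u + 1)) / 64) *
        (3 / 8) ^ (K - 2 - (b + u + 1)) =
        ((8 / 3) * (3 / 8)) ^ (K - 2 - (b + u + 1)) := by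
      rw [mul_pow]; ring
    rw [this]; norm_num
  have hD3 : (2 : ℝ) ^ (K - (b + u + 1)) / 256 ≤ Dt' := by
    rw [hDt, div_le_div_iff₀ (by norm_num) (by norm_num)]
    have h1 : (2 : ℝ) ^ (K - 2 - (b + u + 1)) ≤ (8 / 3) ^ (K - 2 - (b + u + 1)) :=
      pow_le_pow_left₀ (by norm_num) (by norm_num) _
    have h2 : (2 : ℝ) ^ (K - (b + u + 1)) = 2 ^ (K - 2 - (b + u + 1)) * 4 := by
      rw [show (4 : ℝ) = 2 ^ 2 by norm_num, ← pow_add]
      congr 1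
      omega
    linarith
  have hKp : (0 : ℤ) < 64 ^ (K - 1) := by positivity
  have hlp := lvp (b + u + 1)
  have hlv := two_lv' (show 1 ≤ b + u + 1 by omega)
  have h64K : (64 : ℤ) ^ (b + u + 1) ≤ 64 ^ (K - 1) :=
    pow_le_pow_right₀ (by norm_num) (by omega)
  have hj20 : |j + lv (b + u + 1)| ≤ 20 * 64 ^ (K - 1) := by
    have h1 : |j + lv (b + u + 1)| ≤ |j| + |lv (b + u + 1)| := abs_add_le _ _
    rw [abs_of_pos hlp] at h1
    linarith
  have hX0 : (0 : ℤ) ≤ 20 * Aa * 16 ^ (b + u + 1) := by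
    have h1 := N.κ1
    have h2 := N.Aκ
    have h3 : (0 : ℝ) ≤ Aa := by linarith
    have h4 : 0 ≤ Aa := by exact_mod_cast h3
    positivity
  -- the window events
  have hINL := fun (p s0 : ℤ) (n : ℕ) (xc V : ℤ) (hV : 0 ≤ V) =>
    hINT c.q b A (20 * Aa * 16 ^ (b + u + 1)) Ks ((Cdd : ℝ) + 2) H Y p s0 n xc V
      (by omega) hV N.okD nLG
  have hW := fun (w : ℤ) => window (K := K) (b := b) (u := u) (p := j % 2) (j := j) (w := w)
    h_FIM h_MEA c (by omega) hING hINL hA hX0 nV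
  have hwin := hP K (b + u + 1) (b + 2 * u + 1) u (by omega) (by omega) (by omega) (by omega)
    (j + lv (b + u + 1)) hj20 (fun w => BT c CG Cd D K b u (j % 2) j w)
    (2 * ((8 * 16 ^ (2 * u + 1) + 3) * Real.exp (-(64 ^ u)))) (by positivity)
    (fun w => (hW w).1) (fun w k hk1 hk2 out => (hW w).2 k hk1 hk2 out)
  have hE1 := hRGN K (by omega)
  have hE2 := hTOPN K Dt' (by omega) hD1
  have hE3 := h_E3 h_MAR h_FIM c.q p₀ D K u b j (j % 2) (CR * Real.exp (-Real.exp (cR * K))) rfl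
    hp₀ nP (by positivity) hE1
  have hE4 := h_SWS D Da (oK K) (eK K) j (j % 2) (j + lv (b + u + 1)) (64 ^ u)
    (Finset.Icc (-(64 : ℤ) ^ K) (64 ^ K)) N.okD (by
      show A * 16 ^ b ≤ 4 * (8 * 64 ^ (b - 1))
      linarith) nLO (reachK K) (Nat.one_le_pow _ _ (by norm_num))
    (fun l => j + (512 * l + 256) * D.n) (fun l => rfl)
  -- the inclusion
  have hsub : {ω | ∃ γ, Near ω (oK K) (eK K) (4 ^ b / 1000) γ ∧
      (∀ t, j ≤ t → t ≤ j + 64 ^ (b + u + 1) → γ t ≠ LK K ω t) ∧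
      ∀ l : ℕ, l ≤ 64 ^ u →
        |γ (j + l * 64 ^ (b + 1)) - LK K ω (j + l * 64 ^ (b + 1))| ≤ 16 ^ b} ⊆
      ((({ω | ¬ RGk K ω} ∪ {ω | ¬ TOPk Dt' K ω}) ∪
        {ω | ∃ l : ℕ, l < 64 ^ u ∧ ∃ i ∈ Finset.Icc (-(64 : ℤ) ^ K) (64 ^ K),
          ¬ (PE c.q {ω1 | ¬ RGk K (shiftE (-((sb j b l + 32 * 64 ^ b, j % 2 + 16 ^ b * i) : Site))
            (splice (Bx D) ω1 (shiftE (sb j b l + 32 * 64 ^ b, j % 2 + 16 ^ b * i) ω)))} ≤
          pH D ^ 2 / 4)}) ∪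
        {ω | ((64 ^ u : ℕ) : ℝ) ≤ 2 * (((Finset.range (64 ^ u)).filter (fun l : ℕ =>
          ∃ i ∈ Finset.Icc (-(64 : ℤ) ^ K) (64 ^ K), ∃ y : ℤ,
          SwG D Da (j + lv (b + u + 1) - (j + (512 * l + 256) * D.n), y)
            (j - (j + (512 * l + 256) * D.n))
            (j + 512 * ((64 ^ u : ℕ) : ℤ) * D.n - (j + (512 * l + 256) * D.n))
            (shiftE ((j + (512 * l + 256) * D.n), j % 2 + D.w * i) ω)
            (oK K - ((j + (512 * l + 256) * D.n), j % 2 + D.w * i))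
            (eK K - ((j + (512 * l + 256) * D.n), j % 2 + D.w * i)))).card : ℝ)}) ∪
        {ω | ∃ w : ℤ, LK K ω (j + lv (b + u + 1)) ∈ win (b + 2 * u + 1) w ∧
          ω ∈ BT c CG Cd D K b u (j % 2) j w} := by
    rintro ω ⟨γ, h1, h2, h3⟩
    by_cases g1 : RGk K ω
    swap
    · exact Or.inl (Or.inl (Or.inl (Or.inl g1)))
    by_cases g2 : TOPk Dt' K ω
    swap
    · exact Or.inl (Or.inl (Or.inl (Or.inr g2)))
    by_cases g3 : ∃ l : ℕ, l < 64 ^ u ∧ ∃ i ∈ Finset.Icc (-(64 : ℤ) ^ K) (64 ^ K),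
          ¬ (PE c.q {ω1 | ¬ RGk K (shiftE (-((sb j b l + 32 * 64 ^ b, j % 2 + 16 ^ b * i) : Site))
            (splice (Bx D) ω1 (shiftE (sb j b l + 32 * 64 ^ b, j % 2 + 16 ^ b * i) ω)))} ≤
          pH D ^ 2 / 4)
    · exact Or.inl (Or.inl (Or.inr g3))
    by_cases g4 : ∃ w : ℤ, LK K ω (j + lv (b + u + 1)) ∈ win (b + 2 * u + 1) w ∧
          ω ∈ BT c CG Cd D K b u (j % 2) j w
    · exact Or.inr g4
    refine Or.inl (Or.inr ?_)
    have hp : (0 : ℤ) < 16 ^ (b + 2 * u + 1) := by positivity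
    have hL : LK K ω (j + lv (b + u + 1)) ∈ win (b + 2 * u + 1)
        (LK K ω (j + lv (b + u + 1)) / 16 ^ (b + 2 * u + 1)) := by
      refine ⟨Int.ediv_mul_le _ hp.ne', ?_⟩
      exact Int.lt_ediv_add_one_mul_self _ hp
    set w0 := LK K ω (j + lv (b + u + 1)) / 16 ^ (b + 2 * u + 1) with hw0
    have hB : ω ∉ BT c CG Cd D K b u (j % 2) j w0 := fun h => g4 ⟨w0, hL, h⟩
    have hB1 : ¬ InG c.q CG (j % 2) j b (64 ^ u)
      (w0 * 16 ^ (b + 2 * u + 1) + (j + lv (b + u + 1)) % 2) (4 * 16 ^ (b + 2 * u + 1)) ω :=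
      fun h => hB (Or.inl h)
    have hB2 : ¬ InL D Cd (j % 2) j b (64 ^ u)
      (w0 * 16 ^ (b + 2 * u + 1) + (j + lv (b + u + 1)) % 2) (4 * 16 ^ (b + 2 * u + 1)) ω :=
      fun h => hB (Or.inr (Or.inl h))
    have hB3 : ∃ k, b + 2 * u + 1 ≤ k ∧ k ≤ b + 2 * u + 1 + u ∧
        goodAt c (Xf K) (b + u + 1) (K - 2) k (zc (j + lv (b + u + 1)) (b + 2 * u + 1) w0) ω := by
      by_contra hcon
      push Not at hcon
      exact hB (Or.inr (Or.inr hcon))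
    obtain ⟨k, hk1, hk2, hk3⟩ := hB3
    have hO0 := hOR c K (b + u + 1) (b + 2 * u + 1) (2 * u) k (j + lv (b + u + 1)) w0 Dt' ω rfl hK0
      (by omega) (by omega) (by omega) hk1 (by omega) (by omega) hj20 nX nX4 hk3 g1 g2
      (by linarith) hD2 hL
    have hO : OReg c.q κ Xa (b + u + 1) (b + 2 * u + 1) K (j + lv (b + u + 1)) ω :=
      OReg_mono (kp_mono (by linarith)) hO0
    push Not at g3
    exact det h_LAM h_SGB h_RRA N hBLK hj rfl rfl hO hL hB1 hB2 (fun l hl i hi => g3 l hl i hi)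
      h1 h2 h3 (fun l => j + (512 * l + 256) * D.n) (fun l => rfl)
  refine le_trans (measure_mono hsub) ?_
  refine le_trans (measure_union_le _ _) ?_
  refine le_trans (add_le_add (measure_union_le _ _) hwin) ?_
  refine le_trans (add_le_add (add_le_add (measure_union_le _ _) hE4) le_rfl) ?_
  refine le_trans (add_le_add (add_le_add (add_le_add (measure_union_le _ _) hE3) le_rfl) le_rfl) ?_
  refine le_trans (add_le_add (add_le_add (add_le_add (add_le_add hE1 hE2) le_rfl) le_rfl) le_rfl) ?_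
  -- everything as real numbers
  set x : ℝ := (1 / 64) ^ u with hx
  set y : ℝ := Real.exp (-(cc * 2 ^ (K - (b + u + 1)))) with hy
  set z : ℝ := Real.exp (-(cc * K)) with hz
  have hx0 : 0 < x := by rw [hx]; positivity
  have hy0 : 0 < y := Real.exp_pos _
  have hz0 : 0 < z := Real.exp_pos _
  have hKr : (0 : ℝ) ≤ K := by positivity
  have hc1 : cc ≤ cT / 256 := min_le_left _ _
  have hc2 : cc ≤ cR := le_trans (min_le_right _ _) (le_trans (min_le_left _ _) (min_le_left _ _))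
  have hc3 : cc ≤ cP := le_trans (min_le_right _ _) (le_trans (min_le_left _ _) (min_le_right _ _))
  have hc4 : cc ≤ 1 := le_trans (min_le_right _ _) (min_le_right _ _)
  have q3 : ((64 ^ u * (2 * 64 ^ K + 1) : ℕ) : ℝ≥0∞) *
      (ENNReal.ofReal (CR * Real.exp (-Real.exp (cR * K))) * (4 / p₀ ^ 2)) ≤
      ENNReal.ofReal (12 * Real.exp (50 / cR ^ 2) * CR / P ^ 2 * z) := by
    have h1 : (4 : ℝ≥0∞) / p₀ ^ 2 = ENNReal.ofReal (4 / P ^ 2) := by
      rw [← ofReal_div_sq hPp hPe]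
      congr 1
      norm_num
    rw [h1, ← ENNReal.ofReal_natCast, ← ENNReal.ofReal_mul (by positivity),
      ← ENNReal.ofReal_mul (by positivity)]
    apply ENNReal.ofReal_le_ofReal
    have h2 := num_3 hcR K u (by omega)
    have h3 : Real.exp (-(K : ℝ)) ≤ z := by
      apply Real.exp_le_exp.2
      have := mul_le_mul_of_nonneg_right hc4 hKr
      linarith
    have h4 : (0 : ℝ) ≤ CR * (4 / P ^ 2) := by positivity
    calc ((64 ^ u * (2 * 64 ^ K + 1) : ℕ) : ℝ) *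
          (CR * Real.exp (-Real.exp (cR * K)) * (4 / P ^ 2))
        = (((64 ^ u * (2 * 64 ^ K + 1) : ℕ) : ℝ) * Real.exp (-Real.exp (cR * K))) *
          (CR * (4 / P ^ 2)) := by ring
      _ ≤ (3 * Real.exp (50 / cR ^ 2) * Real.exp (-(K : ℝ))) * (CR * (4 / P ^ 2)) :=
          mul_le_mul_of_nonneg_right h2 h4
      _ ≤ (3 * Real.exp (50 / cR ^ 2) * z) * (CR * (4 / P ^ 2)) := by gcongr
      _ = _ := by ring
  have q4 : ENNReal.ofReal (16 * D.A / ((64 ^ u : ℕ) : ℝ)) / pH D ^ 2 ≤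
      ENNReal.ofReal (16 * A / P ^ 2 * x) := by
    have h1 : ENNReal.ofReal (16 * D.A / ((64 ^ u : ℕ) : ℝ)) / pH D ^ 2 ≤
        ENNReal.ofReal (16 * D.A / ((64 ^ u : ℕ) : ℝ)) / p₀ ^ 2 :=
      ENNReal.div_le_div_left (pow_le_pow_left₀ (by positivity) nP 2) _
    refine h1.trans ?_
    rw [ofReal_div_sq hPp hPe]
    apply ENNReal.ofReal_le_ofReal
    apply le_of_eq
    show 16 * (A : ℝ) / ((64 ^ u : ℕ) : ℝ) / P ^ 2 = 16 * A / P ^ 2 * x
    rw [hx]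
    push_cast
    rw [one_div, inv_pow]
    field_simp
  refine le_trans (add_le_add (add_le_add (add_le_add le_rfl q3) q4) le_rfl) ?_
  rw [← ENNReal.ofReal_add (by positivity) (by positivity),
    ← ENNReal.ofReal_add (by positivity) (by positivity),
    ← ENNReal.ofReal_add (by positivity) (by positivity),
    ← ENNReal.ofReal_add (by positivity) (by positivity)]
  apply ENNReal.ofReal_le_ofReal
  have n1 := num_1 u
  have n2 := num_2 u
  have n3 : Real.exp (-Real.exp (cR * K)) ≤ z := by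
    refine le_trans num_E (Real.exp_le_exp.2 ?_)
    have := mul_le_mul_of_nonneg_right hc2 hKr
    linarith
  have n4 : Real.exp (-Real.exp (cP * K)) ≤ z := by
    refine le_trans num_E (Real.exp_le_exp.2 ?_)
    have := mul_le_mul_of_nonneg_right hc3 hKr
    linarith
  have n5 : Real.exp (-(cT * Dt')) ≤ y := by
    apply Real.exp_le_exp.2
    have e1 : cc * 2 ^ (K - (b + u + 1)) ≤ cT / 256 * 2 ^ (K - (b + u + 1)) :=
      mul_le_mul_of_nonneg_right hc1 (by positivity)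
    have e2 : cT * (2 ^ (K - (b + u + 1)) / 256) ≤ cT * Dt' := mul_le_mul_of_nonneg_left hD3 hcT.le
    linarith
  have m1 : CR * Real.exp (-Real.exp (cR * K)) ≤ CR * z := mul_le_mul_of_nonneg_left n3 hCR.le
  have m2 : CT * Real.exp (-(cT * Dt')) ≤ CT * y := mul_le_mul_of_nonneg_left n5 hCT.le
  have m3 : CP * (16 ^ u * (2 * ((8 * 16 ^ (2 * u + 1) + 3) * Real.exp (-(64 ^ u)))) +
      Real.exp (-(10 * (u : ℝ))) + Real.exp (-Real.exp (cP * K))) ≤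
      CP * (1572 * x + x + z) :=
    mul_le_mul_of_nonneg_left (by linarith) hCP.le
  have m4 : CR * z + CT * y + 12 * Real.exp (50 / cR ^ 2) * CR / P ^ 2 * z + 16 * A / P ^ 2 * x +
      CP * (1572 * x + x + z) ≤ CC * (x + y + z) := by
    rw [hCC]
    have e0 : (0 : ℝ) < 64 ^ uN := by positivity
    have s0 : 0 < x + y + z := by positivity
    have e1 : CR * z ≤ CR * (x + y + z) := mul_le_mul_of_nonneg_left (by linarith) hCR.le
    have e2 : CT * y ≤ CT * (x + y + z) := mul_le_mul_of_nonneg_left (by linarith) hCT.le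
    have e3 : CP * (1572 * x + x + z) ≤ CP * 1574 * (x + y + z) := by
      rw [mul_assoc]
      apply mul_le_mul_of_nonneg_left _ hCP.le
      linarith
    have e5 : 12 * Real.exp (50 / cR ^ 2) * CR / P ^ 2 * z ≤
        12 * Real.exp (50 / cR ^ 2) * CR / P ^ 2 * (x + y + z) :=
      mul_le_mul_of_nonneg_left (by linarith) (by positivity)
    have e6 : 16 * A / P ^ 2 * x ≤ 16 * A / P ^ 2 * (x + y + z) :=
      mul_le_mul_of_nonneg_left (by linarith) (by positivity)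
    have e4 : 0 ≤ 64 ^ uN * (x + y + z) := by positivity
    calc _ ≤ CR * (x + y + z) + CT * (x + y + z) +
          12 * Real.exp (50 / cR ^ 2) * CR / P ^ 2 * (x + y + z) +
          16 * A / P ^ 2 * (x + y + z) + CP * 1574 * (x + y + z) := by linarith
      _ = (CR + CT + CP * 1574 + 16 * A / P ^ 2 +
          12 * Real.exp (50 / cR ^ 2) * CR / P ^ 2) * (x + y + z) := by ring
      _ ≤ _ := by
        apply mul_le_mul_of_nonneg_right _ s0.le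
        linarith
  linarith

end Pool.Agent.H84.NT5.TH
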