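import Pool.Agent.H84.NT.Mid
import Pool.Agent.H76.ND.All1
import Pool.Agent.H3.NT.P1
import Pool.Agent.H3.NT.SHF
import Pool.Agent.H3.NT.FTN
import Pool.Agent.H4.NT.TOPN
import Pool.Agent.H4.NT.NTF
import Pool.Agent.H22.NT.OR
import Pool.Agent.H86.NT.SGB
import Pool.Agent.H84.NT.THN
import Pool.Agent.H95.NT.E3
import Pool.Agent.H97.PD.MEA
import Pool.Agent.H58.PD.NMM
import Pool.Agent.H58.PD.FCD
import Pool.Agent.H76.NT.NUM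
import Pool.Agent.H14.NT.DAC
import Pool.Agent.H56.NT.O1W
import Pool.Agent.H58.NT.INT
import Pool.Agent.H58.NT.RGN
import Pool.Agent.H58.NT.RRA

/-!
# Part E of MP_57ddd5_pr: near ties are rare (assembly)
-/

namespace Pool.Agent.H84.NT.All

open Pool.Agent.H99.NS Pool.Agent.H22.LPP Pool.Agent.H95.INS Pool.Agent.H76.ND Pool.Agent.H95.ND
open Pool.Agent.H84.NT hiding lv two_lv
open Pool.Agent.H84.NT5 Pool.Agent.H84.NT.Mid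
open scoped ENNReal

theorem e_ING : T_ING := pf_ING
theorem e_INT : Pool.Agent.H84.NT5.T_INT := pf_INT t_FIM

theorem e_RGN (q : ℝ) (h0 : 0 < q) (h1 : q < 1) : I_RGN q := pf_RGN l_CR a_reg q h0 h1

theorem e_TOPN (q : ℝ) (h0 : 0 < q) (h1 : q < 1) : I_TOPN q :=
  Pool.Agent.H4.NT.pf_TOPN l_SUP l_LT q h0 h1

/-- The hypothesis on the constants from Part D. -/
theorem e_PP {q δ C₀ : ℝ} {c : Cst} {k₀ : ℕ} {p₀ : ℝ≥0∞} (hK : PK q δ C₀ c k₀ p₀)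
    (hP : PALMs c 10) : PP q 10 :=
  ⟨c, hK.hq, hK.K01, hK.A1, Pool.Agent.H3.NT.pf_P1 a_lam c 10 hP⟩

theorem e_OR : T_OR :=
  Pool.Agent.H22.NT.pf_OR Pool.Agent.H3.NT.pf_SHF Pool.Agent.H56.NT.pf_O1W
    Pool.Agent.H76.ND.a_REGE Pool.Agent.H76.ND.a_U Pool.Agent.H76.ND.a_D1 a_lam

theorem e_FTN : T_FTN :=
  Pool.Agent.H3.NT.pf_FTN e_OR e_ING Pool.Agent.H84.NT.pf_BLK Pool.Agent.H84.NT.pf_FIC
    t_FIM a_lam

theorem e_SGB : T_SGB := Pool.Agent.H86.NT.pf_SGB a_lam a_lamm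

theorem e_THN : T_THN :=
  Pool.Agent.H84.NT5.TH.pf_THN Pool.Agent.H76.NT.pf_NUM Pool.Agent.H95.NT.pf_E3
    (Pool.Agent.H97.PD.pf_MEA Pool.Agent.H58.PD.pf_NMM (Pool.Agent.H58.PD.pf_FCD t_DEP t_FIM))
    e_OR e_ING e_INT m_PEI m_LGD a_gr Pool.Agent.H84.NT.pf_BLK pf_DAC pf_RRA e_SGB m_SWS t_MAR
    t_FIM a_lam

/-- Near ties are rare. -/
theorem i_NT {q δ C₀ : ℝ} {c : Cst} {k₀ : ℕ} {p₀ : ℝ≥0∞} (h0 : 0 < q) (h1 : q < 1)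
    (hK : PK q δ C₀ c k₀ p₀) (hP : PALMs c 10) : Pool.Agent.H97.ST.I_NT q := by
  have hPP := e_PP hK hP
  exact Pool.Agent.H4.NT.pf_NTF q h0 h1
    (e_THN q h0 h1 hPP (m_GRP q h0 h1) (m_LG q h0 h1) (e_RGN q h0 h1) (e_TOPN q h0 h1))
    (e_FTN q h0 h1 hPP (m_GRP q h0 h1) (m_AC q h0 h1) (e_RGN q h0 h1) (e_TOPN q h0 h1))

end Pool.Agent.H84.NT.All
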