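import Pool.Agent.H22.LPP.TargetsB
import Pool.Agent.H95.INS.Targets3

/-!
# Near ties (Part E of MP_57ddd5_pr): definitions for the anti-concentration estimate
-/

open MeasureTheory ProbabilityTheory
open scoped ENNReal

namespace Pool.Agent.H84.NT

open Pool.Agent.H99.NS Pool.Agent.H22.LPP Pool.Agent.H95.INS

/-- Half of the time scale `64 ^ k` (for `k ≥ 1`). -/
def lv (k : ℕ) : ℤ := 32 * 64 ^ (k - 1)

theorem two_lv {k : ℕ} (hk : 1 ≤ k) : 2 * lv k = 64 ^ k := by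
  obtain ⟨m, rfl⟩ : ∃ m, k = m + 1 := ⟨k - 1, by omega⟩
  simp only [lv, Nat.add_sub_cancel]
  ring

/-- The tube of half width `R 16^k` around the origin, of the duration `64^k`. -/
def tube (R : ℤ) (k : ℕ) : Set Site := {z | -lv k < z.1 ∧ z.1 ≤ lv k ∧ |z.2| < R * 16 ^ k}

/-- Highway event of a sub-block of scale `k` centred at the origin: from every (even) point of
the bottom window to every point of the top window there is a path in the tube of weight at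
least `par + K1 4^k`. -/
def HH (q K1 : ℝ) (Cd R : ℤ) (k : ℕ) (ω : Env) : Prop :=
  ∀ y y' : ℤ, Even y → |y| ≤ 16 ^ k → |y'| ≤ (Cd + 1) * 16 ^ k →
    Reach (-lv k, y) (lv k, y') →
    ∃ g, Conn (-lv k, y) (lv k, y') g ∧ Stay (R * 16 ^ k) (-lv k) (lv k) g ∧
      par q (-lv k, y) (lv k, y') + K1 * 4 ^ k ≤ wt ω (-lv k) (lv k) g

/-- The block `[s, s + 64^k]` is fine for the path `g`: small displacement and no large
excess. -/
def Fine (q K1 : ℝ) (Cd : ℤ) (k : ℕ) (ω : Env) (s : ℤ) (g : ℤ → ℤ) : Prop :=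
  |g (s + 64 ^ k) - g s| ≤ Cd * 16 ^ k ∧
    wt ω s (s + 64 ^ k) g ≤
      par q (s, g s) (s + 64 ^ k, g (s + 64 ^ k)) + K1 / 2 * 4 ^ k

/-- The box: `n` blocks of height `64^k` above the level `t0`, half width `W 16^k`. -/
def bx (t0 c : ℤ) (n k : ℕ) (W : ℤ) : Set Site :=
  {z | t0 < z.1 ∧ z.1 ≤ t0 + n * 64 ^ k ∧ |z.2 - c| < W * 16 ^ k}

open Classical in
/-- The event of the anti-concentration estimate. -/
def ACev (q K1 : ℝ) (Cd : ℤ) (k n : ℕ) (W t0 c : ℤ) (o e : Site) (b0 g : ℝ) (ω : Env) : Prop :=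
  b0 ≤ T ω o e ∧ T ω o e ≤ b0 + g ∧
  (∀ r, t0 ≤ r → r ≤ t0 + n * 64 ^ k → 2 * |Lam ω o e r - c| ≤ W * 16 ^ k) ∧
  n ≤ 2 * ((Finset.range n).filter
    (fun l : ℕ => Fine q K1 Cd k ω (t0 + l * 64 ^ k) (Lam ω o e))).card

end Pool.Agent.H84.NT
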