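import Pool.Agent.H84.NT.Targets
import Pool.Agent.H97.ST.Defs
import Pool.Agent.H76.ND.Defs

/-!
# Near ties: definitions for the blocks (E3) and the swap (E4)
-/

open MeasureTheory ProbabilityTheory
open scoped ENNReal

namespace Pool.Agent.H84.NT

open Pool.Agent.H99.NS Pool.Agent.H22.LPP Pool.Agent.H95.INS
open Pool.Agent.H97.ST (oK eK Lk)

/-! ## Blocks -/

/-- Index of the window `[16^b i + p, 16^b (i+1) + p)` of `y`. -/
def wi (p : ℤ) (b : ℕ) (y : ℤ) : ℤ := (y - p) / 16 ^ b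

/-- Bottom level of the block `l`. -/
def sb (s0 : ℤ) (b l : ℕ) : ℤ := s0 + l * 64 ^ (b + 1)

/-- Excess of `g` on the block starting at `s` over the parabola of curvature `3/4`, in units
`4^b`, positive part. -/
noncomputable def exl (q : ℝ) (b : ℕ) (ω : Env) (s : ℤ) (g : ℤ → ℤ) : ℝ :=
  max 0 ((wt ω s (s + 64 ^ (b + 1)) g -
    parS q (3 / 4) (s, g s) (s + 64 ^ (b + 1), g (s + 64 ^ (b + 1)))) / 4 ^ b)

/-- Increment of the window index on the block starting at `s`. -/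
def dwi (p : ℤ) (b : ℕ) (s : ℤ) (g : ℤ → ℤ) : ℤ :=
  wi p b (g (s + 64 ^ (b + 1))) - wi p b (g s)

/-- The greedy sum. -/
noncomputable def GRs (q : ℝ) (p s0 : ℤ) (b n : ℕ) (ω : Env) (g : ℤ → ℤ) : ℝ :=
  ∑ l ∈ Finset.range n,
    (exl q b ω (sb s0 b l) g - sg q / 1024 * ((dwi p b (sb s0 b l) g : ℤ) : ℝ) ^ 2)

/-! ## Local regularity of a block -/

open Classical in
/-- The environment with the weights outside of the strip `|x| < 2 X` put to zero in the time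
slab `(-256 n, 256 n]`. -/
noncomputable def cutS (D : Dat) (ω : Env) : Env :=
  fun z => if -(256 * D.n) < z.1 ∧ z.1 ≤ 256 * D.n ∧ 2 * D.X ≤ |z.2| then 0 else ω z

/-- The path stays in the tube of half width `V` on `[-256 n, 256 n]`. -/
def InT (D : Dat) (V : ℤ) (g : ℤ → ℤ) : Prop :=
  ∀ r, -(256 * D.n) ≤ r → r ≤ 256 * D.n → |g r| < V

/-- Local goodness of a block: `(O1)` and `(O2)` for the cut environment and the Fubini
condition. -/
def LG0 (D : Dat) (ω : Env) : Prop := O1 D (cutS D ω) ∧ O2 D (cutS D ω) ∧ FC D ω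

/-- Upper bounds for paths, soft time `8 n / 200`. -/
def O1S (D : Dat) (ω : Env) : Prop :=
  ∀ s t g, -(256 * D.n) ≤ s → s ≤ t → t ≤ 256 * D.n → IsPath s t g → |g s| ≤ D.X →
    |g t| ≤ D.X → wt ω s t g ≤ sp D.q (8 * D.n / 200) s t g +
      D.K * D.f * (1 + max |(g s : ℝ)| |(g t : ℝ)| / D.w)

/-! ## Small and large scale -/

/-- Relation of the data `D` (small scale, centre `0`) and `Da` (large scale, centre `z`). -/
structure Rel (D Da : Dat) (z : Site) : Prop where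
  okD : D.Ok
  okA : Da.Ok
  qq : Da.q = D.q
  ev : Even (z.1 + z.2)
  t1 : -(4 * Da.n) ≤ -(256 * D.n) - z.1
  t2 : 256 * D.n - z.1 ≤ 4 * Da.n
  nn : 200 * D.n ≤ Da.n
  lat : |z.2| + D.A * D.w ≤ Da.A * Da.w
  tub : 16 * Da.A * Da.w + |z.2| ≤ D.X
  xx : 3 * D.X ≤ Da.X
  sep : 6400 * D.A * D.w ≤ Da.w
  yh : 4 * D.Y * D.f ≤ Da.H * Da.f
  ka : sg D.q ≤ Da.K

/-- Everything needed in the localised insertion lemma: `ω` is the new environment, `ω'` the old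
one; they agree outside the small box. -/
structure Loc (D Da : Dat) (z : Site) (ω ω' : Env) (o e : Site) : Prop where
  rel : Rel D Da z
  ag : Agree D ω ω'
  en : Ends D o e
  ena : Ends Da (o - z) (e - z)
  ev : Ev D ω
  rr : RR Da (shiftE z ω) (o - z) (e - z)
  o1 : O1 D (cutS D ω')
  o2 : O2 D (cutS D ω')
  a1 : O1S Da (shiftE z ω')
  a2 : O2 Da (shiftE z ω')
  l1 : |(Lam ω' o e (-(256 * D.n)) : ℝ)| ≤ D.B * D.w
  l2 : |(Lam ω' o e (256 * D.n) : ℝ)| ≤ D.B * D.w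
  tu : InT D (2 * D.X) (Lam ω' o e)
  g1 : |((Lam ω' o e (z.1 - 256 * Da.n) - z.2 : ℤ) : ℝ)| ≤ Da.B * Da.w
  g2 : |((Lam ω' o e (z.1 + 256 * Da.n) - z.2 : ℤ) : ℝ)| ≤ Da.B * Da.w

/-- The disjointness event of the swap: two near optimal paths which do not meet on `(J1, J2]`
outside of the block, and all near optimal paths meet in the block. -/
def DE (D : Dat) (J1 J2 : ℤ) (ω : Env) (o e : Site) : Prop :=
  (∃ g g', Near ω o e (14 * D.H * D.f / 1000) g ∧ Near ω o e (14 * D.H * D.f / 1000) g' ∧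
    ∀ r, J1 < r → r ≤ J2 → ¬ (-(256 * D.n) < r ∧ r ≤ 256 * D.n) → g r ≠ g' r) ∧
  ∀ g g', Near ω o e (14 * D.H * D.f / 1000) g → Near ω o e (14 * D.H * D.f / 1000) g' →
    ∃ r, -(256 * D.n) < r ∧ r ≤ 256 * D.n ∧ g r = g' r

/-- The old environment `ω` is ready for the swap in the block centred at the origin (centre of
the large scale: `z`). -/
structure SwG (D Da : Dat) (z : Site) (J1 J2 : ℤ) (ω : Env) (o e : Site) : Prop where
  rel : Rel D Da z
  en : Ends D o e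
  ena : Ends Da (o - z) (e - z)
  lg : LG0 D ω
  a1 : O1S Da (shiftE z ω)
  a2 : O2 Da (shiftE z ω)
  l1 : |(Lam ω o e (-(256 * D.n)) : ℝ)| ≤ D.B * D.w
  l2 : |(Lam ω o e (256 * D.n) : ℝ)| ≤ D.B * D.w
  tu : InT D (2 * D.X) (Lam ω o e)
  g1 : |((Lam ω o e (z.1 - 256 * Da.n) - z.2 : ℤ) : ℝ)| ≤ Da.B * Da.w
  g2 : |((Lam ω o e (z.1 + 256 * Da.n) - z.2 : ℤ) : ℝ)| ≤ Da.B * Da.w
  rf : PE D.q {ω1 | ¬ RR Da (shiftE z (splice (Bx D) ω1 ω)) (o - z) (e - z)} ≤ pH D ^ 2 / 4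
  gam : ∃ g, Near ω o e (D.H * D.f / 1000) g ∧ |(g (-(256 * D.n)) : ℝ)| ≤ D.B * D.w ∧
    |(g (256 * D.n) : ℝ)| ≤ D.B * D.w ∧ InT D (2 * D.X) g ∧
    ∀ r, J1 < r → r ≤ J2 → g r ≠ Lam ω o e r

end Pool.Agent.H84.NT
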