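import Pool.Agent.H84.NT.Targets3
import Pool.Agent.H95.ND.Defs
import Pool.Agent.H84.GL.Targets2

/-!
# Near ties: definitions for the assembly (thin and fat near ties)
-/

open MeasureTheory ProbabilityTheory
open scoped ENNReal

namespace Pool.Agent.H84.NT5

open Pool.Agent.H99.NS Pool.Agent.H22.LPP Pool.Agent.H95.INS Pool.Agent.H76.ND Pool.Agent.H95.ND
open Pool.Agent.H84.NT hiding lv two_lv

/-- The leftmost geodesic of the local problem of scale `K`. -/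
noncomputable def LK (K : ℕ) (ω : Env) (t : ℤ) : ℤ := Lam ω (oK K) (eK K) t

/-- PALM for one environment. -/
def P1s (c : Cst) (M : ℝ) : Prop := ∃ C c' : ℝ, 0 < C ∧ 0 < c' ∧ ∃ K₁ : ℕ,
  ∀ K a a1 m : ℕ, K₁ ≤ K → K ≤ 40 * a → a ≤ a1 → a1 + 2 * m + 2 ≤ K →
  ∀ j : ℤ, |j| ≤ 20 * 64 ^ (K - 1) → ∀ (Bad : ℤ → Set Env) (β : ℝ), 0 ≤ β →
    (∀ w, MeasurableSet (Bad w)) →
    (∀ (w : ℤ) (k : ℕ), a1 ≤ k → k ≤ a1 + m → ∀ out : Env,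
      PE c.q {ω | splice (BxAt (dk c (Xf K) k) (zc j a1 w)) ω out ∈ Bad w ∧
        goodAt c (Xf K) a (K - 2) k (zc j a1 w)
          (splice (BxAt (dk c (Xf K) k) (zc j a1 w)) ω out)} ≤ ENNReal.ofReal β) →
    PE c.q {ω | ∃ w : ℤ, LK K ω j ∈ win a1 w ∧ ω ∈ Bad w} ≤
      ENNReal.ofReal (C * (16 ^ m * β + Real.exp (-(M * m)) + Real.exp (-Real.exp (c' * K))))

/-- Constants with PALM. -/
def PP (q M : ℝ) : Prop := ∃ c : Cst, c.q = q ∧ 1 ≤ c.K0 ∧ 200 ≤ c.A ∧ P1s c M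

/-- Regularity of all near geodesics. -/
def RGk (K : ℕ) (ω : Env) : Prop :=
  ∀ a : ℕ, K ≤ 40 * a → a ≤ K → ∀ g, Near ω (oK K) (eK K) (4 ^ (K / 2000) * 4 ^ a) g →
    RGG (Xf K) a (-lv K) (lv K) g

/-- All near geodesics stay in `|x| ≤ D 16^K`. -/
def TOPk (D : ℝ) (K : ℕ) (ω : Env) : Prop :=
  ∀ g, Near ω (oK K) (eK K) (4 ^ K) g → ∀ t, -lv K ≤ t → t ≤ lv K → |(g t : ℝ)| ≤ D * 16 ^ K

/-- Data at scale `a` without the constants of the new environment. -/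
noncomputable def dr (q κ : ℝ) (a : ℕ) (X : ℤ) : Dat := dat q a 0 κ 0 0 0 X

/-- Regularity of the environment around `(j, LK K ω j)` at the scale `a`. -/
structure OReg (q κ : ℝ) (X : ℤ) (a a1 K : ℕ) (j : ℤ) (ω : Env) : Prop where
  u : O1S (dr q κ a X) (shiftE (j, LK K ω j) ω)
  l : O2 (dr q κ a X) (shiftE (j, LK K ω j) ω)
  d : ∀ g t1, Near ω (oK K) (eK K) (4 ^ a) g → |t1 - j| ≤ lv a →
    |g t1 - LK K ω j| ≤ 6 * 16 ^ a1 →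
    (∀ t, |t - j| ≤ lv a → |((g t - g t1 : ℤ) : ℝ)| ≤ κ * 16 ^ a) ∧
    |((g (j - lv (a + 1)) - g t1 : ℤ) : ℝ)| ≤ κ * 16 ^ a ∧
    |((g (j + lv (a + 1)) - g t1 : ℤ) : ℝ)| ≤ κ * 16 ^ a ∧
    mu q * 64 ^ a - κ * 4 ^ a ≤ wt ω (j - lv a) (j + lv a) g

/-- The size of the constants at distance `d` of the scales. -/
noncomputable def kp (Cκ K0 : ℝ) (d : ℕ) : ℝ := Cκ * K0 ^ 4 * (101 / 100) ^ (4 * d)

/-- Failure of the greedy bound in the tube `|x - xc| ≤ V`. -/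
def InG (q CG : ℝ) (p s0 : ℤ) (b n : ℕ) (xc V : ℤ) (ω : Env) : Prop :=
  ∃ g, IsPath s0 (s0 + n * 64 ^ (b + 1)) g ∧
    (∀ r, s0 ≤ r → r ≤ s0 + n * 64 ^ (b + 1) → |g r - xc| ≤ V) ∧
    CG * n ≤ GRs q p s0 b n ω g

open Classical in
/-- Many blocks which are not locally good in the tube. -/
def InL (D : Dat) (Cd : ℝ) (p s0 : ℤ) (b n : ℕ) (xc V : ℤ) (ω : Env) : Prop :=
  1 ≤ n ∧ ∃ g, IsPath s0 (s0 + n * 64 ^ (b + 1)) g ∧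
    (∀ r, s0 ≤ r → r ≤ s0 + n * 64 ^ (b + 1) → |g r - xc| ≤ V) ∧
    ∑ l ∈ Finset.range n, ((dwi p b (sb s0 b l) g : ℤ) : ℝ) ^ 2 ≤ Cd * n ∧
    (n : ℝ) ≤ 8 * (((Finset.range n).filter (fun l : ℕ =>
      ¬ LG0 D (shiftE (sb s0 b l + 32 * 64 ^ b, 16 ^ b * wi p b (g (sb s0 b l)) + p) ω))).card : ℝ)

/-- Thin near ties are rare. -/
def I_THIN (q : ℝ) : Prop := ∃ (C c c' : ℝ) (s₁ K₁ : ℕ), 0 < C ∧ 0 < c ∧ 0 < c' ∧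
  ∀ (K a u : ℕ) (j : ℤ), K₁ ≤ K → K ≤ 35 * a → a + 4 * u + s₁ ≤ K → (u : ℝ) ≤ c' * K →
    |j| ≤ 18 * 64 ^ (K - 1) →
    PE q {ω | ∃ γ, Near ω (oK K) (eK K) (4 ^ (a - u - 1) / 1000) γ ∧
      (∀ t, j ≤ t → t ≤ j + 64 ^ a → γ t ≠ LK K ω t) ∧
      ∀ l : ℕ, l ≤ 64 ^ u →
        |γ (j + l * 64 ^ (a - u)) - LK K ω (j + l * 64 ^ (a - u))| ≤ 16 ^ (a - u - 1)} ≤
    ENNReal.ofReal (C * ((1 / 64) ^ u + Real.exp (-(c * 2 ^ (K - a))) + Real.exp (-(c * K))))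

/-- Fat near ties are rare. -/
def I_FATN (q : ℝ) : Prop := ∃ (C c c' : ℝ) (s₁ K₁ : ℕ), 0 < C ∧ 0 < c ∧ 0 < c' ∧
  ∀ (K b v : ℕ) (t : ℤ), K₁ ≤ K → K ≤ 35 * b → b + 2 * v + s₁ ≤ K → (v : ℝ) ≤ c' * K →
    |t| ≤ 19 * 64 ^ (K - 1) →
    PE q {ω | ∃ γ, Near ω (oK K) (eK K) (4 ^ (b - 20 * v) / 4) γ ∧
      16 ^ b ≤ |γ t - LK K ω t|} ≤
    ENNReal.ofReal (C * ((1 / 16) ^ v + Real.exp (-(c * 2 ^ (K - b))) + Real.exp (-(c * K))))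

end Pool.Agent.H84.NT5
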