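import Pool.Agent.H84.GL.All
import Pool.Agent.H22.LPP.All
import Pool.Agent.H95.INS.Final
import Pool.Agent.H15.NT.VSU
import Pool.Agent.H19.NT.LGP
import Pool.Agent.H19.NT.O1P
import Pool.Agent.H19.NT.O2P
import Pool.Agent.H20.NT.GRP
import Pool.Agent.H20.NT.SWS
import Pool.Agent.H20.NT.ZEX
import Pool.Agent.H21.NT.CUA
import Pool.Agent.H21.NT.CUT
import Pool.Agent.H21.NT.TUB
import Pool.Agent.H29.NT.ABS
import Pool.Agent.H29.NT.AC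
import Pool.Agent.H29.NT.ACD
import Pool.Agent.H3.NT.DED
import Pool.Agent.H3.NT.SWD
import Pool.Agent.H3.NT.SWG
import Pool.Agent.H38.NT.CVB
import Pool.Agent.H38.NT.HHD
import Pool.Agent.H38.NT.HPD
import Pool.Agent.H44.NT.BLK
import Pool.Agent.H44.NT.CLA
import Pool.Agent.H44.NT.EXC
import Pool.Agent.H44.NT.FIC
import Pool.Agent.H47.NT.O2C
import Pool.Agent.H47.NT.PEI
import Pool.Agent.H47.NT.SW1
import Pool.Agent.H48.NT.INL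
import Pool.Agent.H57.NT.HPOS
import Pool.Agent.H57.NT.HWK
import Pool.Agent.H64.NT.GBL
import Pool.Agent.H64.NT.HAR
import Pool.Agent.H64.NT.LGD
import Pool.Agent.H73.NT.Evp

/-!
# Part E of MP_57ddd5_pr: the modules E2, E3, E4 without hypotheses
-/

namespace Pool.Agent.H84.NT.Mid

open Pool.Agent.H99.NS Pool.Agent.H22.LPP Pool.Agent.H95.INS Pool.Agent.H84.NT
open Pool.Agent.H84.GL (D_UT D_LT D_HW D_UTMS D_LTS cst)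

theorem l_UT : D_UT := Pool.Agent.H84.GL.All.a_UT
theorem l_LT : D_LT := Pool.Agent.H84.GL.All.a_LT
theorem l_BA : B_BA := a_ba l_UT l_LT
theorem l_BC : B_BC := a_bc l_UT l_LT
theorem l_BL : B_BL := a_bl l_LT
theorem l_SUP : B_SUP := a_sup l_UT l_LT
theorem l_CR : B_CR := a_cr l_UT l_LT

/-! ## Inputs of Part C -/

theorem l_IA (q : ℝ) (h0 : 0 < q) (h1 : q < 1) : I_A q := t_IA l_BA q h0 h1
theorem l_IB (q : ℝ) (h0 : 0 < q) (h1 : q < 1) : I_B q := t_IB l_BL q h0 h1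
theorem l_IC (q : ℝ) (h0 : 0 < q) (h1 : q < 1) : I_C q := t_IC l_BC q h0 h1
theorem l_IS (q : ℝ) (h0 : 0 < q) (h1 : q < 1) : I_S q (cst q) :=
  t_IS (b_bcs l_LT) q (cst q) h0 h1 (cst_pos' h0 h1)
    (uts_of Pool.Agent.H84.GL.All.a_UTMS h0 h1)

theorem l_LTS (q : ℝ) (h0 : 0 < q) (h1 : q < 1) : Pool.Agent.H95.INS.LTS q (cst q) := by
  intro ε hε
  obtain ⟨K₀, hK₀, H⟩ := Pool.Agent.H84.GL.All.a_LTS q h0 h1 ε hε
  exact ⟨K₀, by linarith, fun K hK => H K hK⟩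

theorem l_IL (q : ℝ) (h0 : 0 < q) (h1 : q < 1) : I_L q (cst q) :=
  t_IL q (cst q) h0 h1 (l_LTS q h0 h1)

/-! ## E2: anti-concentration -/

theorem m_HHD : T_HHD := Pool.Agent.H38.NT.pf_HHD

theorem m_IH (q : ℝ) (h0 : 0 < q) (h1 : q < 1) (K1 : ℝ) (Cd : ℤ) (hK : 0 ≤ K1) (hC : 0 ≤ Cd) :
    I_H q K1 Cd :=
  Pool.Agent.H57.NT.pf_HPOS Pool.Agent.H38.NT.pf_HPD m_HHD t_FIM q h0 h1
    (Pool.Agent.H64.NT.pf_GBL l_BL q h0 h1)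
    (Pool.Agent.H57.NT.pf_HWK Pool.Agent.H84.GL.All.a_HW q h0 h1) (l_IA q h0 h1) K1 Cd hK hC

theorem m_CVB : T_CVB := Pool.Agent.H38.NT.pf_CVB Pool.Agent.H64.NT.pf_HAR t_FIM
theorem m_ABS : T_ABS := Pool.Agent.H29.NT.pf_ABS m_CVB Pool.Agent.H15.NT.pf_VSU t_FIM

/-- The anti-concentration estimate. -/
theorem m_AC (q : ℝ) (h0 : 0 < q) (h1 : q < 1) : I_AC q :=
  Pool.Agent.H29.NT.pf_AC m_ABS Pool.Agent.H29.NT.pf_ACD m_HHD t_FIM a_lam q h0 h1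
    (m_IH q h0 h1)

/-! ## E3: blocks -/

theorem m_GRP (q : ℝ) (h0 : 0 < q) (h1 : q < 1) : ∃ CG : ℝ, 0 < CG ∧ I_GRP q CG :=
  Pool.Agent.H20.NT.pf_GRP a_gr Pool.Agent.H20.NT.pf_ZEX l_SUP q h0 h1

theorem m_PEI : T_PEI := Pool.Agent.H47.NT.PEI.pf_PEI
theorem m_LGD : T_LGD := Pool.Agent.H64.NT.pf_LGD t_DEP

theorem m_LG (q : ℝ) (h0 : 0 < q) (h1 : q < 1) (ε B : ℝ) (hε : 0 < ε) (hB : 0 ≤ B) :
    I_LG q ε B :=
  Pool.Agent.H19.NT.pf_LGP Pool.Agent.H19.NT.pf_O1P Pool.Agent.H19.NT.pf_O2P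
    Pool.Agent.H47.NT.O2C.pf_O2C f_PRB l_BA l_BL q (cst q) h0 h1 (cst_pos' h0 h1)
    (l_IA q h0 h1) (l_IC q h0 h1) (l_IB q h0 h1) (l_IS q h0 h1) (l_IL q h0 h1) ε B hε hB

/-! ## E4: swap -/

theorem m_CUT : T_CUT := Pool.Agent.H21.NT.pf_CUT
theorem m_TUB : T_TUB :=
  Pool.Agent.H21.NT.pf_TUB m_CUT Pool.Agent.H84.NT.pf_EXC (Pool.Agent.H84.NT.pf_CLA m_CUT t_W)
    Pool.Agent.H21.NT.pf_CUA t_S1 t_INN t_AVO t_S3 a_lam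
theorem m_INL : T_INL := Pool.Agent.H48.NT.pf_INL m_CUT m_TUB t_DET t_INN t_LEX a_lam
theorem m_SW1 : T_SW1 :=
  Pool.Agent.H47.NT.SW1.pf_SW1 m_INL (Pool.Agent.H73.NT.pf_EVP t_IN1) a_lam
theorem m_SWS : T_SWS :=
  Pool.Agent.H20.NT.pf_SWS m_SW1 (Pool.Agent.H3.NT.pf_SWG t_FIM) (Pool.Agent.H3.NT.pf_SWD m_LGD)
    Pool.Agent.H3.NT.pf_DED t_FIM a_lamm

end Pool.Agent.H84.NT.Mid
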