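import Pool.Agent.H84.NT.Targets5

/-!
# Thin near ties: the pieces of `T_THN`
-/

open MeasureTheory ProbabilityTheory
open scoped ENNReal

namespace Pool.Agent.H84.NT5.TH

open Pool.Agent.H99.NS Pool.Agent.H22.LPP Pool.Agent.H95.INS Pool.Agent.H76.ND Pool.Agent.H95.ND
open Pool.Agent.H84.NT hiding lv two_lv
open Pool.Agent.H84.NT5

set_option linter.unusedVariables false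

/-- The numerical conditions of the deterministic step. -/
structure Num (q κ Ks B H Y Cd : ℝ) (A Aa Xa Cdd : ℤ) (K b u : ℕ) : Prop where
  q0 : 0 < q
  q1 : q < 1
  okD : (dat q b A Ks B H Y (20 * Aa * 16 ^ (b + u + 1))).Ok
  okA : (dat q (b + u + 1) Aa κ κ (sg q * Aa ^ 2 / 4) (sg q * Aa ^ 2 / 4) Xa).Ok
  b1 : 1 ≤ b
  u1 : 1 ≤ u
  K40 : K ≤ 40 * (b + u + 1)
  aK : b + u + 1 + 2 ≤ K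
  κ1 : 1 ≤ κ
  κs : sg q ≤ κ
  Aκ : 2 * κ + 2 ≤ Aa
  XX : 3 * (20 * Aa * 16 ^ (b + u + 1)) ≤ Xa
  AA : 6400 * A * 16 ^ b ≤ 16 ^ (b + u + 1)
  YY : 4 * Y * 4 ^ b ≤ sg q * Aa ^ 2 / 4 * 4 ^ (b + u + 1)
  Cd0 : 0 < Cd
  Cdd0 : 0 ≤ Cdd
  Cdd2 : 4 * Cd ≤ (Cdd : ℝ) ^ 2
  CB : (Cdd : ℝ) + 2 ≤ B
  HH1 : 1 ≤ H
  HH4 : H * 4 ^ b / 1000 ≤ 4 ^ (b + u + 1)
  κu : κ * 16 ^ (b + u + 1) + 16 ^ b ≤ 6 * 16 ^ (b + 2 * u + 1)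
  κv : κ * 16 ^ (b + u + 1) ≤ 2 * 16 ^ (b + 2 * u + 1)
  κw : κ * 4 ^ (u + 1) ≤ 64 ^ u
  H14 : 14 * (sg q * Aa ^ 2 / 4) / 1000 ≤ 4 ^ (K / 2000)
  XR : 2 * Aa * 16 ^ (b + u + 1) + Xf K * 16 ^ (b + u + 1) ≤ 2 * Xa

/-- E3: the resampled environment is crudely regular. -/
def T_E3 : Prop := T_MAR → T_FIM → ∀ (q : ℝ) (p₀ : ℝ≥0∞) (D : Dat) (K u b : ℕ) (j p : ℤ)
  (x : ℝ), D.q = q → 0 < p₀ → p₀ ≤ pH D → 0 ≤ x → PE q {ω | ¬ RGk K ω} ≤ ENNReal.ofReal x →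
  PE q {ω | ∃ l : ℕ, l < 64 ^ u ∧ ∃ i ∈ Finset.Icc (-(64 : ℤ) ^ K) (64 ^ K),
    ¬ (PE q {ω1 | ¬ RGk K (shiftE (-((sb j b l + 32 * 64 ^ b, p + 16 ^ b * i) : Site))
        (splice (Bx D) ω1 (shiftE (sb j b l + 32 * 64 ^ b, p + 16 ^ b * i) ω)))} ≤
      pH D ^ 2 / 4)} ≤
    ((64 ^ u * (2 * 64 ^ K + 1) : ℕ) : ℝ≥0∞) * (ENNReal.ofReal x * (4 / p₀ ^ 2))

/-- The choice of the large scale (all the numerical conditions). -/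
def T_NUM : Prop := T_DAC → ∀ q : ℝ, 0 < q → q < 1 → ∀ (K0 Cκ Cd : ℝ) (Cdd A : ℤ)
  (Ks B H Y ε : ℝ) (p₀ : ℝ≥0∞) (k₀ : ℕ), 1 ≤ K0 → 1 + sg q ≤ Cκ → 0 < Cd → 0 ≤ Cdd →
  4 * Cd ≤ (Cdd : ℝ) ^ 2 → (Cdd : ℝ) + 2 ≤ B → 40 ≤ A → 1 ≤ H → 1 ≤ k₀ →
  (∀ (k : ℕ) (X : ℤ), k₀ ≤ k → 16 * A * 16 ^ k ≤ X → (4 * X : ℝ) ≤ 16 ^ k * 2 ^ ((k : ℝ) / 4) →
    let D := dat q k A Ks B H Y X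
    D.Ok ∧ A * 16 ^ k ≤ 32 * 64 ^ (k - 1) ∧ p₀ ≤ pH D ∧ PE q {ω | ¬ LO D ω} ≤ 1 / 100 ∧
    (PE q).real {ω | ¬ LG0 D ω} ≤ ε) →
  ∃ (c' : ℝ) (s₁ K₁ u₀ : ℕ), 0 < c' ∧ ∀ K b u : ℕ, K₁ ≤ K → K ≤ 35 * (b + u + 1) →
    b + u + 1 + 4 * u + s₁ ≤ K → (u : ℝ) ≤ c' * K → u₀ ≤ u →
    ∃ Aa : ℤ, Num q (kp Cκ K0 (2 * u)) Ks B H Y Cd A Aa ((Xf K - 16) * 16 ^ (b + u + 1)) Cdd
        K b u ∧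
      A * 16 ^ b ≤ 32 * 64 ^ (b - 1) ∧
      p₀ ≤ pH (dat q b A Ks B H Y (20 * Aa * 16 ^ (b + u + 1))) ∧
      PE q {ω | ¬ LO (dat q b A Ks B H Y (20 * Aa * 16 ^ (b + u + 1))) ω} ≤ 1 / 100 ∧
      (PE q).real {ω | ¬ LG0 (dat q b A Ks B H Y (20 * Aa * 16 ^ (b + u + 1))) ω} ≤ ε ∧
      4 * 16 ^ (b + 2 * u + 1) + 16 ^ b + 2 * (20 * Aa * 16 ^ (b + u + 1)) <
        200 * 16 ^ (b + 2 * u + 1) ∧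
      64 ≤ Xf K ∧ 4 * Xf K ≤ 4 ^ (b + u + 1) ∧ 40 ≤ b

end Pool.Agent.H84.NT5.TH
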