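import Pool.Agent.H3.NT.FTNc
import Pool.Agent.H84.NT.THNd
import Pool.Agent.H58.NT.RRA

/-!
# Thin near ties, part 1: the deterministic step
-/

open MeasureTheory ProbabilityTheory
open scoped ENNReal

namespace Pool.Agent.H84.NT5.TH

open Pool.Agent.H99.NS Pool.Agent.H22.LPP Pool.Agent.H95.INS Pool.Agent.H76.ND Pool.Agent.H95.ND
open Pool.Agent.H84.NT hiding lv two_lv
open Pool.Agent.H84.NT5
open Pool.Agent.H3.NT.F (lvp two_lv' reachK)


/-- Counting. -/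
theorem count {n : ℕ} {G B1 B2 : Finset ℕ} (h : ∀ l ∈ Finset.range n, l ∈ B1 ∨ l ∈ B2 ∨ l ∈ G)
    (h1 : 8 * (B1.card : ℝ) < n) (h2 : 4 * (B2.card : ℝ) ≤ n) : (n : ℝ) ≤ 2 * (G.card : ℝ) := by
  have h3 : Finset.range n ⊆ (B1 ∪ B2) ∪ G := by
    intro l hl
    rcases h l hl with h4 | h4 | h4
    · exact Finset.mem_union_left _ (Finset.mem_union_left _ h4)
    · exact Finset.mem_union_left _ (Finset.mem_union_right _ h4)
    · exact Finset.mem_union_right _ h4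
  have h5 := Finset.card_le_card h3
  rw [Finset.card_range] at h5
  have h6 := Finset.card_union_le (B1 ∪ B2) G
  have h7 := Finset.card_union_le B1 B2
  have h8 : n ≤ B1.card + B2.card + G.card := by omega
  have h9 : (n : ℝ) ≤ B1.card + B2.card + G.card := by exact_mod_cast h8
  linarith

open Classical in
/-- Few large displacements. -/
theorem large {n b : ℕ} {Cd : ℝ} {Cdd : ℤ} {d : ℕ → ℤ} (hCd : 0 < Cd)
    (hC : 4 * Cd ≤ (Cdd : ℝ) ^ 2) (hC0 : 0 ≤ Cdd)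
    (h : ∑ l ∈ Finset.range n, ((d l : ℤ) : ℝ) ^ 2 ≤ Cd * n * 256 ^ b) :
    4 * (((Finset.range n).filter (fun l => Cdd * 16 ^ b < |d l|)).card : ℝ) ≤ n := by
  set B2 := (Finset.range n).filter (fun l => Cdd * 16 ^ b < |d l|) with hB
  have h1 : ∑ l ∈ B2, (4 * Cd * 256 ^ b : ℝ) ≤ ∑ l ∈ Finset.range n, ((d l : ℤ) : ℝ) ^ 2 := by
    calc ∑ l ∈ B2, (4 * Cd * 256 ^ b : ℝ) ≤ ∑ l ∈ B2, ((d l : ℤ) : ℝ) ^ 2 := by
          apply Finset.sum_le_sum
          intro l hl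
          rw [hB, Finset.mem_filter] at hl
          have h2 : ((Cdd * 16 ^ b : ℤ) : ℝ) < ((|d l| : ℤ) : ℝ) := by exact_mod_cast hl.2
          push_cast at h2
          have h3 : (0 : ℝ) ≤ Cdd * 16 ^ b := by positivity
          have h4 : ((Cdd : ℝ) * 16 ^ b) ^ 2 ≤ |(d l : ℝ)| ^ 2 :=
            pow_le_pow_left₀ h3 h2.le 2
          rw [sq_abs, mul_pow] at h4
          have h5 : ((16 : ℝ) ^ b) ^ 2 = 256 ^ b := by
            rw [← pow_mul, mul_comm b 2, pow_mul]; norm_num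
          rw [h5] at h4
          refine le_trans ?_ h4
          exact mul_le_mul_of_nonneg_right hC (by positivity)
      _ ≤ _ := Finset.sum_le_sum_of_subset_of_nonneg (Finset.filter_subset _ _)
          (fun _ _ _ => sq_nonneg _)
  rw [Finset.sum_const, nsmul_eq_mul] at h1
  have h2 := h1.trans h
  have h3 : 0 < Cd * 256 ^ b := by positivity
  have h4 : 4 * (B2.card : ℝ) * (Cd * 256 ^ b) ≤ n * (Cd * 256 ^ b) := by linarith
  exact le_of_mul_le_mul_right h4 h3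

theorem shiftE_shiftE (x y : Site) (ω : Env) : shiftE x (shiftE y ω) = shiftE (x + y) ω := by
  funext z
  simp only [shiftE]
  rw [add_assoc]

open Classical in
/-- The deterministic step. -/
theorem det (h_LAM : B_LAM) (h_SGB : T_SGB) (h_RRA : T_RRA) {q κ Ks B H Y Cd CG : ℝ}
    {A Aa Xa Cdd : ℤ} {K b u : ℕ} {j w p xc : ℤ} {ω : Env}
    (N : Num q κ Ks B H Y Cd A Aa Xa Cdd K b u)
    (hBLK : ∀ (ω : Env) (g : ℤ → ℤ) (p s0 : ℤ) (b n : ℕ), IsPath s0 (s0 + n * 64 ^ (b + 1)) g →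
      mu q * (n * 64 ^ (b + 1)) - n * 4 ^ b ≤ wt ω s0 (s0 + n * 64 ^ (b + 1)) g →
      GRs q p s0 b n ω g ≤ CG * n →
      ∑ l ∈ Finset.range n, ((g (sb s0 b l + 64 ^ (b + 1)) - g (sb s0 b l) : ℤ) : ℝ) ^ 2 ≤
        Cd * n * 256 ^ b ∧
      ∑ l ∈ Finset.range n, ((dwi p b (sb s0 b l) g : ℤ) : ℝ) ^ 2 ≤ Cd * n ∧
      ∑ l ∈ Finset.range n, exl q b ω (sb s0 b l) g ≤ Cd * n)
    (hj : |j| ≤ 18 * 64 ^ (K - 1)) (hp : p = j % 2)
    (hxc : xc = w * 16 ^ (b + 2 * u + 1) + (j + lv (b + u + 1)) % 2)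
    (hO : OReg q κ Xa (b + u + 1) (b + 2 * u + 1) K (j + lv (b + u + 1)) ω)
    (hL : LK K ω (j + lv (b + u + 1)) ∈ win (b + 2 * u + 1) w)
    (hG : ¬ InG q CG p j b (64 ^ u) xc (4 * 16 ^ (b + 2 * u + 1)) ω)
    (hI : ¬ InL (dat q b A Ks B H Y (20 * Aa * 16 ^ (b + u + 1))) Cd p j b (64 ^ u) xc
      (4 * 16 ^ (b + 2 * u + 1)) ω)
    (hRf : ∀ l : ℕ, l < 64 ^ u → ∀ i ∈ Finset.Icc (-(64 : ℤ) ^ K) (64 ^ K),
      PE q {ω1 | ¬ RGk K (shiftE (-((sb j b l + 32 * 64 ^ b, p + 16 ^ b * i) : Site))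
        (splice (Bx (dat q b A Ks B H Y (20 * Aa * 16 ^ (b + u + 1)))) ω1
          (shiftE (sb j b l + 32 * 64 ^ b, p + 16 ^ b * i) ω)))} ≤
      pH (dat q b A Ks B H Y (20 * Aa * 16 ^ (b + u + 1))) ^ 2 / 4)
    {γ : ℤ → ℤ} (hγ : Near ω (oK K) (eK K) (4 ^ b / 1000) γ)
    (hγd : ∀ t, j ≤ t → t ≤ j + 64 ^ (b + u + 1) → γ t ≠ LK K ω t)
    (hγn : ∀ l : ℕ, l ≤ 64 ^ u →
      |γ (j + l * 64 ^ (b + 1)) - LK K ω (j + l * 64 ^ (b + 1))| ≤ 16 ^ b)
    (c : ℕ → ℤ) (hc : ∀ l : ℕ, c l = j + (512 * l + 256) *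
      (dat q b A Ks B H Y (20 * Aa * 16 ^ (b + u + 1))).n) :
    ((64 ^ u : ℕ) : ℝ) ≤ 2 * (((Finset.range (64 ^ u)).filter (fun l : ℕ =>
      ∃ i ∈ Finset.Icc (-(64 : ℤ) ^ K) (64 ^ K), ∃ y : ℤ,
      SwG (dat q b A Ks B H Y (20 * Aa * 16 ^ (b + u + 1)))
        (dat q (b + u + 1) Aa κ κ (sg q * Aa ^ 2 / 4) (sg q * Aa ^ 2 / 4) Xa)
        (j + lv (b + u + 1) - c l, y) (j - c l)
        (j + 512 * ((64 ^ u : ℕ) : ℤ) * (dat q b A Ks B H Y (20 * Aa * 16 ^ (b + u + 1))).n - c l)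
        (shiftE (c l, p + (dat q b A Ks B H Y (20 * Aa * 16 ^ (b + u + 1))).w * i) ω)
        (oK K - (c l, p + (dat q b A Ks B H Y (20 * Aa * 16 ^ (b + u + 1))).w * i))
        (eK K - (c l, p + (dat q b A Ks B H Y (20 * Aa * 16 ^ (b + u + 1))).w * i)))).card : ℝ) := by
  classical
  set D := dat q b A Ks B H Y (20 * Aa * 16 ^ (b + u + 1)) with hD
  set Da := dat q (b + u + 1) Aa κ κ (sg q * Aa ^ 2 / 4) (sg q * Aa ^ 2 / 4) Xa with hDa
  have hw : D.w = 16 ^ b := rfl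
  have hn : D.n = 8 * 64 ^ (b - 1) := rfl
  have hb := N.b1
  obtain ⟨b', rfl⟩ : ∃ b', b = b' + 1 := ⟨b - 1, by omega⟩
  have hn' : D.n = 8 * 64 ^ b' := by rw [hn, Nat.add_sub_cancel]
  have ha1 : 1 ≤ b' + 1 + u + 1 := by omega
  have hlv := two_lv' ha1
  have hlp := lvp (b' + 1 + u + 1)
  set a := b' + 1 + u + 1 with ha
  set j' := j + lv a with hj'
  have hr := reachK K
  obtain ⟨⟨hLc, hLT⟩, hLl⟩ := h_LAM ω (oK K) (eK K) hr
  have hoK : (oK K).1 = -lv K := rfl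
  have heK : (eK K).1 = lv K := rfl
  have h64a : ((64 ^ u : ℕ) : ℤ) * 64 ^ (b' + 1 + 1) = 64 ^ a := by
    rw [ha]; push_cast; ring
  -- room
  have hKp : (0 : ℤ) < 64 ^ (K - 1) := by positivity
  have hlvK : lv K = 32 * 64 ^ (K - 1) := rfl
  have haK := N.aK
  have h64K : (64 : ℤ) ^ a ≤ 64 ^ (K - 1) := pow_le_pow_right₀ (by norm_num) (by omega)
  have hjl : -lv K ≤ j := by
    have := neg_abs_le j; linarith
  have hju : j + 64 ^ a ≤ lv K := by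
    have := le_abs_self j; linarith
  have hj'20 : |j'| ≤ 20 * 64 ^ (K - 1) := by
    have h1 : |j'| ≤ |j| + |lv a| := abs_add_le _ _
    rw [abs_of_pos hlp] at h1
    linarith
  -- the leftmost geodesic
  have hnear : Near ω (oK K) (eK K) (4 ^ a) (LK K ω) := by
    refine ⟨hLc, ?_⟩
    have : wt ω (oK K).1 (eK K).1 (LK K ω) = T ω (oK K) (eK K) := hLT
    rw [this]
    have : (0 : ℝ) < 4 ^ a := by positivity
    linarith
  have hLd := hO.d (LK K ω) j' hnear (by simp only [sub_self, abs_zero]; exact hlp.le)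
    (by simp only [sub_self, abs_zero]; positivity)
  have hrange : ∀ r, j ≤ r → r ≤ j + 64 ^ a → |r - j'| ≤ lv a := by
    intro r h1 h2
    rw [hj', abs_le]
    constructor <;> linarith
  obtain ⟨hL1, hL2⟩ := hL
  have hp16 : (0 : ℤ) < 16 ^ (b' + 1 + 2 * u + 1) := by positivity
  have hmod : 0 ≤ j' % 2 ∧ j' % 2 ≤ 1 := by omega
  have hLx : |LK K ω j' - xc| ≤ 16 ^ (b' + 1 + 2 * u + 1) := by
    rw [hxc, abs_le]
    constructor
    · have : (1 : ℤ) ≤ 16 ^ (b' + 1 + 2 * u + 1) := hp16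
      linarith [hmod.2]
    · linarith [hmod.1]
  have hLr : ∀ r, j ≤ r → r ≤ j + 64 ^ a → |LK K ω r - xc| ≤ 4 * 16 ^ (b' + 1 + 2 * u + 1) := by
    intro r h1 h2
    have h3 := hLd.1 r (hrange r h1 h2)
    have h4 : |((LK K ω r - LK K ω j' : ℤ) : ℝ)| ≤ 2 * 16 ^ (b' + 1 + 2 * u + 1) :=
      h3.trans N.κv
    have h5 : |LK K ω r - LK K ω j'| ≤ 2 * 16 ^ (b' + 1 + 2 * u + 1) := by exact_mod_cast h4
    have h6 := abs_add_le (LK K ω r - LK K ω j') (LK K ω j' - xc)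
    rw [sub_add_sub_cancel] at h6
    linarith
  have hse : j + ((64 ^ u : ℕ) : ℤ) * 64 ^ (b' + 1 + 1) = j + 64 ^ a := by rw [h64a]
  have hpath : IsPath j (j + ((64 ^ u : ℕ) : ℤ) * 64 ^ (b' + 1 + 1)) (LK K ω) := by
    intro r h1 h2
    rw [hse] at h2
    exact hLc.1 r (by rw [hoK]; linarith) (by rw [heK]; linarith)
  have htube : ∀ r, j ≤ r → r ≤ j + ((64 ^ u : ℕ) : ℤ) * 64 ^ (b' + 1 + 1) →
      |LK K ω r - xc| ≤ 4 * 16 ^ (b' + 1 + 2 * u + 1) := by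
    intro r h1 h2
    rw [hse] at h2
    exact hLr r h1 h2
  have hGR : GRs q p j (b' + 1) (64 ^ u) ω (LK K ω) ≤ CG * ((64 ^ u : ℕ) : ℝ) := by
    by_contra hcon
    exact hG ⟨LK K ω, hpath, htube, (not_le.1 hcon).le⟩
  have hjm : j' - lv a = j := by rw [hj']; ring
  have hjp : j' + lv a = j + 64 ^ a := by rw [hj']; linarith
  have hwt : mu q * (((64 ^ u : ℕ) : ℝ) * 64 ^ (b' + 1 + 1)) -
      ((64 ^ u : ℕ) : ℝ) * 4 ^ (b' + 1) ≤
      wt ω j (j + ((64 ^ u : ℕ) : ℤ) * 64 ^ (b' + 1 + 1)) (LK K ω) := by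
    rw [hse, ← hjp]
    have h1 := hLd.2.2.2
    rw [hjm] at h1
    refine le_trans ?_ h1
    have e1 : (64 : ℝ) ^ a = ((64 ^ u : ℕ) : ℝ) * 64 ^ (b' + 1 + 1) := by
      rw [ha]; push_cast; ring
    have e2 : κ * 4 ^ a ≤ ((64 ^ u : ℕ) : ℝ) * 4 ^ (b' + 1) := by
      push_cast
      have e3 : κ * 4 ^ a = κ * 4 ^ (u + 1) * 4 ^ (b' + 1) := by rw [ha]; ring
      rw [e3]
      exact mul_le_mul_of_nonneg_right N.κw (by positivity)
    rw [e1]
    linarith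
  obtain ⟨hB1, hB2, hB3⟩ := hBLK ω (LK K ω) p j (b' + 1) (64 ^ u) hpath hwt hGR
  have h64u : 1 ≤ 64 ^ u := Nat.one_le_pow _ _ (by norm_num)
  have hLGn : 8 * (((Finset.range (64 ^ u)).filter (fun l : ℕ =>
      ¬ LG0 D (shiftE (sb j (b' + 1) l + 32 * 64 ^ (b' + 1), 16 ^ (b' + 1) *
        wi p (b' + 1) (LK K ω (sb j (b' + 1) l)) + p) ω))).card : ℝ) < ((64 ^ u : ℕ) : ℝ) := by
    by_contra hcon
    exact hI ⟨h64u, LK K ω, hpath, htube, hB2, not_lt.1 hcon⟩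
  have hlarge := large (n := 64 ^ u) (b := b' + 1) (Cdd := Cdd)
    (d := fun l : ℕ => LK K ω (sb j (b' + 1) l + 64 ^ (b' + 1 + 1)) - LK K ω (sb j (b' + 1) l))
    N.Cd0 N.Cdd2 N.Cdd0 hB1
  refine count ?_ hLGn hlarge
  intro l hl
  rw [Finset.mem_range] at hl
  by_cases hb1 : LG0 D (shiftE (sb j (b' + 1) l + 32 * 64 ^ (b' + 1), 16 ^ (b' + 1) *
        wi p (b' + 1) (LK K ω (sb j (b' + 1) l)) + p) ω)
  swap
  · exact Or.inl (Finset.mem_filter.2 ⟨Finset.mem_range.2 hl, hb1⟩)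
  by_cases hb2 : Cdd * 16 ^ (b' + 1) < |LK K ω (sb j (b' + 1) l + 64 ^ (b' + 1 + 1)) -
      LK K ω (sb j (b' + 1) l)|
  · exact Or.inr (Or.inl (Finset.mem_filter.2 ⟨Finset.mem_range.2 hl, hb2⟩))
  right; right
  rw [Finset.mem_filter]
  refine ⟨Finset.mem_range.2 hl, ?_⟩
  -- the block `l`
  set s := sb j (b' + 1) l with hs
  have hsd : s = j + l * 64 ^ (b' + 1 + 1) := rfl
  have hcl : c l = s + 32 * 64 ^ (b' + 1) := by
    rw [hc l, hsd, hn']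
    ring
  set i := wi p (b' + 1) (LK K ω s) with hi
  set x := p + D.w * i with hx
  have hx' : 16 ^ (b' + 1) * wi p (b' + 1) (LK K ω s) + p = x := by rw [hx, hw]; ring
  rw [hx'] at hb1
  have hpb : (0 : ℤ) < 16 ^ (b' + 1) := by positivity
  have hmod' : (LK K ω s - p) % 16 ^ (b' + 1) = LK K ω s - x := by
    have := Int.emod_add_mul_ediv (LK K ω s - p) (16 ^ (b' + 1))
    rw [hx, hw, hi]
    unfold wi
    linarith
  have hm0 : 0 ≤ LK K ω s - x := by rw [← hmod']; exact Int.emod_nonneg _ hpb.ne'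
  have hm1 : LK K ω s - x < 16 ^ (b' + 1) := by rw [← hmod']; exact Int.emod_lt_of_pos _ hpb
  have hl' : (l : ℤ) + 1 ≤ ((64 ^ u : ℕ) : ℤ) := by exact_mod_cast hl
  have h64b : (0 : ℤ) < 64 ^ (b' + 1 + 1) := by positivity
  have hs1 : j ≤ s := by
    rw [hsd]
    have : (0 : ℤ) ≤ l * 64 ^ (b' + 1 + 1) := by positivity
    linarith
  have hs2 : s + 64 ^ (b' + 1 + 1) ≤ j + 64 ^ a := by
    rw [hsd, ← h64a]
    nlinarith
  -- parity
  have hpar : Even (LK K ω s - x) := by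
    have h1 : Even (LK K ω s + s) := by
      have h2 := hLc
      have h3 : Reach (oK K) (s, LK K ω s) :=
        (hLc.left (show s ≤ (eK K).1 by rw [heK]; linarith)).reach
          (show (oK K).1 ≤ s by rw [hoK]; linarith)
      obtain ⟨_, m, hm⟩ := h3
      simp only at hm
      have h4 : (oK K).2 = 0 := rfl
      have h5 : Even (lv K) := ⟨16 * 64 ^ (K - 1), by rw [hlvK]; ring⟩
      obtain ⟨m5, hm5⟩ := h5
      rw [hoK, h4] at hm
      exact ⟨m - m5, by linarith⟩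
    have h6 : Even (x - p) := ⟨8 * 16 ^ b' * i, by rw [hx, hw]; ring⟩
    have h7 : Even (s - j) := ⟨l * 32 * 64 ^ (b' + 1), by rw [hsd]; ring⟩
    have h8 : Even (j - p) := ⟨(j - p) / 2, by omega⟩
    have h9 : LK K ω s - x = (LK K ω s + s) - (x - p) - (s - j) - (j - p) - 2 * p := by ring
    rw [h9]
    exact (((h1.sub h6).sub h7).sub h8).sub (even_two_mul p)
  -- the index
  have habsL : |LK K ω s| ≤ 64 ^ K := by
    have h3 : Reach (oK K) (s, LK K ω s) :=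
        (hLc.left (show s ≤ (eK K).1 by rw [heK]; linarith)).reach
          (show (oK K).1 ≤ s by rw [hoK]; linarith)
    have h4 := h3.1
    simp only at h4
    have h5 : (oK K).2 = 0 := rfl
    rw [h5, hoK, sub_zero] at h4
    refine h4.trans ?_
    have h6 : (64 : ℤ) ^ K = 64 * 64 ^ (K - 1) := by
      rw [← pow_succ']; congr 1; omega
    linarith
  have hiI : i ∈ Finset.Icc (-(64 : ℤ) ^ K) (64 ^ K) := by
    have h1 : (1 : ℤ) ≤ 64 ^ K := one_le_pow₀ (by norm_num)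
    have hpp : 0 ≤ p ∧ p ≤ 1 := by omega
    obtain ⟨h2, h3⟩ := abs_le.1 habsL
    have h16 : (2 : ℤ) ≤ 16 ^ (b' + 1) := by
      calc (2 : ℤ) ≤ 16 ^ 1 := by norm_num
        _ ≤ 16 ^ (b' + 1) := pow_le_pow_right₀ (by norm_num) (by omega)
    rw [Finset.mem_Icc, hi]
    unfold wi
    constructor
    · rw [Int.le_ediv_iff_mul_le hpb]
      nlinarith
    · have := Int.ediv_lt_of_lt_mul hpb (show LK K ω s - p < (64 ^ K + 1) * 16 ^ (b' + 1) by
        nlinarith)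
      omega
  refine ⟨i, hiI, LK K ω j' - x, ?_⟩
  have hsl0 := hγn l (by omega)
  have hsl1 := hγn (l + 1) (by omega)
  have hsl00 := hγn 0 (by omega)
  rw [Nat.cast_zero, zero_mul, add_zero] at hsl00
  have hs3 : j + ((l + 1 : ℕ) : ℤ) * 64 ^ (b' + 1 + 1) = s + 64 ^ (b' + 1 + 1) := by
    rw [hsd]; push_cast; ring
  rw [hs3] at hsl1
  rw [← hsd] at hsl0
  -- the global condition
  have hzc : p + 16 ^ (b' + 1) * i = x := by rw [hx, hw]
  have hRfl := hRf l hl i hiI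
  rw [hzc] at hRfl
  have hRR : PE q {ω1 | ¬ RR Da (shiftE (j' - (s + 32 * 64 ^ (b' + 1)), LK K ω j' - x)
      (splice (Bx D) ω1 (shiftE (s + 32 * 64 ^ (b' + 1), x) ω)))
      (oK K - (s + 32 * 64 ^ (b' + 1), x) - (j' - (s + 32 * 64 ^ (b' + 1)), LK K ω j' - x))
      (eK K - (s + 32 * 64 ^ (b' + 1), x) - (j' - (s + 32 * 64 ^ (b' + 1)), LK K ω j' - x))} ≤
      pH D ^ 2 / 4 := by
    refine le_trans (measure_mono ?_) hRfl
    intro ω1 h1
    simp only [Set.mem_ofPred_eq] at h1 ⊢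
    intro h2
    apply h1
    have h3 := h_RRA q K a Aa Xa j' (LK K ω j') κ κ (sg q * Aa ^ 2 / 4) (sg q * Aa ^ 2 / 4)
      (shiftE (-((s + 32 * 64 ^ (b' + 1), x) : Site))
        (splice (Bx D) ω1 (shiftE (s + 32 * 64 ^ (b' + 1), x) ω))) N.K40 (by omega) (by omega)
      h2 hj'20 N.H14 N.XR
    rw [shiftE_shiftE] at h3
    have e1 : ((j', LK K ω j') : Site) + -((s + 32 * 64 ^ (b' + 1), x) : Site) =
        (j' - (s + 32 * 64 ^ (b' + 1)), LK K ω j' - x) := by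
      ext <;> simp [sub_eq_add_neg]
    rw [e1] at h3
    have e2 : ∀ y : Site, y - (s + 32 * 64 ^ (b' + 1), x) -
        (j' - (s + 32 * 64 ^ (b' + 1)), LK K ω j' - x) = y - (j', LK K ω j') := by
      intro y
      ext
      · simp
      · simp
    rw [e2, e2]
    exact h3
  have hgoal := h_SGB q κ Ks B H Y K a (b' + 1) (b' + 1 + 2 * u + 1) A Aa
    (20 * Aa * 16 ^ a) Xa j' s x Cdd ω γ N.q0 N.q1 N.okD N.okA (by omega)
    (by have := N.u1; omega) (by omega) N.K40 (by omega) hj'20 N.κ1 N.κs N.Aκ rfl N.XX N.AA N.YY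
    N.Cdd0 N.CB N.HH4 N.κu hO (by rw [hjm]; exact hs1) (by rw [hjp]; exact hs2) hpar (by linarith)
    (by linarith) (not_lt.1 hb2) hb1 hRR
    (Pool.Agent.H84.NT5.RRAaux.near_mono hγ (by
      show (4 : ℝ) ^ (b' + 1) / 1000 ≤ H * 4 ^ (b' + 1) / 1000
      have h1 : (0 : ℝ) < 4 ^ (b' + 1) := by positivity
      have h2 := N.HH1
      apply div_le_div_of_nonneg_right _ (by norm_num)
      nlinarith))
    (by rw [hjm, hjp]; exact hγd) (by rw [hjm]; exact hsl00) hsl0 hsl1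
  have e3 : j + 512 * ((64 ^ u : ℕ) : ℤ) * D.n = j' + lv a := by
    rw [hjp, ← h64a, hn']
    ring
  rw [e3, hcl]
  have e4 : j - (s + 32 * 64 ^ (b' + 1)) = j' - lv a - (s + 32 * 64 ^ (b' + 1)) := by rw [hjm]
  rw [e4]
  exact hgoal

end Pool.Agent.H84.NT5.TH
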