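import Pool.Agent.H84.NT.THNa
import Pool.Agent.H95.ND.Targets

/-!
# Thin near ties, part 2: one window
-/

open MeasureTheory ProbabilityTheory
open scoped ENNReal

namespace Pool.Agent.H84.NT5.TH

open Pool.Agent.H99.NS Pool.Agent.H22.LPP Pool.Agent.H95.INS Pool.Agent.H76.ND Pool.Agent.H95.ND
open Pool.Agent.H84.NT hiding lv two_lv
open Pool.Agent.H84.NT5
open Pool.Agent.H3.NT.F (lvp two_lv' reachK mem_box)

/-- The bad event of the window `w` (`a = b + u + 1`, `a1 = b + 2 u + 1`). -/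
def BT (c : Cst) (CG Cd : ℝ) (D : Dat) (K b u : ℕ) (p j w : ℤ) : Set Env :=
  {ω | InG c.q CG p j b (64 ^ u)
      (w * 16 ^ (b + 2 * u + 1) + (j + lv (b + u + 1)) % 2) (4 * 16 ^ (b + 2 * u + 1)) ω ∨
    InL D Cd p j b (64 ^ u)
      (w * 16 ^ (b + 2 * u + 1) + (j + lv (b + u + 1)) % 2) (4 * 16 ^ (b + 2 * u + 1)) ω ∨
    ∀ k, b + 2 * u + 1 ≤ k → k ≤ b + 2 * u + 1 + u →
      ¬ goodAt c (Xf K) (b + u + 1) (K - 2) k (zc (j + lv (b + u + 1)) (b + 2 * u + 1) w) ω}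

theorem lv_mono' {i i' : ℕ} (h : i ≤ i') : lv i ≤ lv i' := by
  unfold lv
  have : (64 : ℤ) ^ (i - 1) ≤ 64 ^ (i' - 1) := pow_le_pow_right₀ (by norm_num) (by omega)
  linarith

/-- Probability and measurability of the bad event of one window. -/
theorem window (h_FIM : T_FIM) (h_MEA : T_MEA) (c : Cst) {CG Cd : ℝ} {Ks B H Y : ℝ} {A X : ℤ}
    {K b u : ℕ} {p j w : ℤ} (hb : 1 ≤ b)
    (hING : ∀ (p s0 : ℤ) (b n : ℕ) (xc V : ℤ), 0 ≤ V →
      (PE c.q).real {ω | InG c.q CG p s0 b n xc V ω} ≤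
        (2 * V / 16 ^ b + 3) * Real.exp (-(n : ℝ)) ∧
      DepOn {x : Site | s0 < x.1 ∧ x.1 ≤ s0 + n * 64 ^ (b + 1) ∧ |x.2 - xc| ≤ V}
        (InG c.q CG p s0 b n xc V) ∧
      {x : Site | s0 < x.1 ∧ x.1 ≤ s0 + n * 64 ^ (b + 1) ∧ |x.2 - xc| ≤ V}.Finite)
    (hINL : ∀ (p s0 : ℤ) (n : ℕ) (xc V : ℤ), 0 ≤ V →
      (PE c.q).real {ω | InL (dat c.q b A Ks B H Y X) Cd p s0 b n xc V ω} ≤
        (2 * V / 16 ^ b + 3) * Real.exp (-(n : ℝ)) ∧
      DepOn {x : Site | s0 < x.1 ∧ x.1 ≤ s0 + n * 64 ^ (b + 1) ∧ |x.2 - xc| ≤ V + 16 ^ b + 2 * X}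
        (InL (dat c.q b A Ks B H Y X) Cd p s0 b n xc V) ∧
      {x : Site | s0 < x.1 ∧ x.1 ≤ s0 + n * 64 ^ (b + 1) ∧
        |x.2 - xc| ≤ V + 16 ^ b + 2 * X}.Finite)
    (hA : 200 ≤ c.A) (hX : 0 ≤ X)
    (hV : 4 * 16 ^ (b + 2 * u + 1) + 16 ^ b + 2 * X < 200 * 16 ^ (b + 2 * u + 1)) :
    MeasurableSet (BT c CG Cd (dat c.q b A Ks B H Y X) K b u p j w) ∧
    ∀ k : ℕ, b + 2 * u + 1 ≤ k → k ≤ b + 2 * u + 1 + u → ∀ out : Env,
    PE c.q {ω | splice (BxAt (dk c (Xf K) k)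
        (zc (j + lv (b + u + 1)) (b + 2 * u + 1) w)) ω out ∈
          BT c CG Cd (dat c.q b A Ks B H Y X) K b u p j w ∧
      goodAt c (Xf K) (b + u + 1) (K - 2) k (zc (j + lv (b + u + 1)) (b + 2 * u + 1) w)
        (splice (BxAt (dk c (Xf K) k) (zc (j + lv (b + u + 1)) (b + 2 * u + 1) w)) ω out)} ≤
      ENNReal.ofReal (2 * ((8 * 16 ^ (2 * u + 1) + 3) * Real.exp (-(64 ^ u)))) := by
  have hV0 : (0 : ℤ) ≤ 4 * 16 ^ (b + 2 * u + 1) := by positivity
  set xc := w * 16 ^ (b + 2 * u + 1) + (j + lv (b + u + 1)) % 2 with hxc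
  set D := dat c.q b A Ks B H Y X with hD
  obtain ⟨G1, G2, G3⟩ := hING p j b (64 ^ u) xc (4 * 16 ^ (b + 2 * u + 1)) hV0
  obtain ⟨L1, L2, L3⟩ := hINL p j (64 ^ u) xc (4 * 16 ^ (b + 2 * u + 1)) hV0
  have mG := h_FIM _ _ G3 G2
  have mL := h_FIM _ _ L3 L2
  refine ⟨?_, ?_⟩
  · have mN : MeasurableSet {ω : Env | ∀ k, b + 2 * u + 1 ≤ k → k ≤ b + 2 * u + 1 + u →
        ¬ goodAt c (Xf K) (b + u + 1) (K - 2) k
          (zc (j + lv (b + u + 1)) (b + 2 * u + 1) w) ω} := by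
      rw [Set.ofPred_forall]
      refine MeasurableSet.iInter fun k => ?_
      by_cases h1 : b + 2 * u + 1 ≤ k
      · by_cases h2 : k ≤ b + 2 * u + 1 + u
        · have := (h_MEA c (Xf K) (b + u + 1) (K - 2) k
            (zc (j + lv (b + u + 1)) (b + 2 * u + 1) w) (by omega) (by omega)).compl
          refine MeasurableSet.congr this ?_
          ext ω
          simp [h1, h2]
        · have : {ω : Env | b + 2 * u + 1 ≤ k → k ≤ b + 2 * u + 1 + u →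
            ¬ goodAt c (Xf K) (b + u + 1) (K - 2) k
              (zc (j + lv (b + u + 1)) (b + 2 * u + 1) w) ω} = Set.univ := by
            ext ω
            simp [h2]
          rw [this]
          exact MeasurableSet.univ
      · have : {ω : Env | b + 2 * u + 1 ≤ k → k ≤ b + 2 * u + 1 + u →
            ¬ goodAt c (Xf K) (b + u + 1) (K - 2) k
              (zc (j + lv (b + u + 1)) (b + 2 * u + 1) w) ω} = Set.univ := by
            ext ω
            simp [h1]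
        rw [this]
        exact MeasurableSet.univ
    exact mG.union (mL.union mN)
  · intro k hk1 hk2 out
    set Q := BxAt (dk c (Xf K) k) (zc (j + lv (b + u + 1)) (b + 2 * u + 1) w) with hQ
    have ha1 : 1 ≤ b + u + 1 := by omega
    have hlv := two_lv' ha1
    have hlp := lvp (b + u + 1)
    have hn : ((64 ^ u : ℕ) : ℤ) * 64 ^ (b + 1) = 2 * lv (b + u + 1) := by
      rw [hlv]; push_cast; ring
    have hlvk : lv (b + u + 1) ≤ lv k := lv_mono' (by omega)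
    have hp : (16 : ℤ) ^ (b + 2 * u + 1) ≤ 16 ^ k := pow_le_pow_right₀ (by norm_num) hk1
    have hp0 : (0 : ℤ) < 16 ^ (b + 2 * u + 1) := by positivity
    have hAk : 200 * 16 ^ (b + 2 * u + 1) ≤ c.A * 16 ^ k :=
      mul_le_mul hA hp (by positivity) (by linarith)
    have hpb : (0 : ℤ) < 16 ^ b := by positivity
    have hQ1 : {x : Site | j < x.1 ∧ x.1 ≤ j + ((64 ^ u : ℕ) : ℤ) * 64 ^ (b + 1) ∧
        |x.2 - xc| ≤ 4 * 16 ^ (b + 2 * u + 1)} ⊆ Q := by
      rintro x ⟨h1, h2, h3⟩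
      rw [hn] at h2
      exact mem_box (by linarith) (by linarith) (lt_of_le_of_lt h3 (by linarith))
    have hQ2 : {x : Site | j < x.1 ∧ x.1 ≤ j + ((64 ^ u : ℕ) : ℤ) * 64 ^ (b + 1) ∧
        |x.2 - xc| ≤ 4 * 16 ^ (b + 2 * u + 1) + 16 ^ b + 2 * X} ⊆ Q := by
      rintro x ⟨h1, h2, h3⟩
      rw [hn] at h2
      exact mem_box (by linarith) (by linarith) (lt_of_le_of_lt h3 (by linarith))
    have hsub : {ω | splice Q ω out ∈ BT c CG Cd D K b u p j w ∧
        goodAt c (Xf K) (b + u + 1) (K - 2) k (zc (j + lv (b + u + 1)) (b + 2 * u + 1) w)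
          (splice Q ω out)} ⊆
        {ω | InG c.q CG p j b (64 ^ u) xc (4 * 16 ^ (b + 2 * u + 1)) ω} ∪
        {ω | InL D Cd p j b (64 ^ u) xc (4 * 16 ^ (b + 2 * u + 1)) ω} := by
      rintro ω ⟨h1, h2⟩
      rcases h1 with h1 | h1 | h1
      · left
        have h8 := G2 ω (splice Q ω out) (fun x hx => (splice_of_mem _ _ (hQ1 hx)).symm)
        show InG c.q CG p j b (64 ^ u) xc (4 * 16 ^ (b + 2 * u + 1)) ω
        rw [h8]
        exact h1
      · right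
        have h8 := L2 ω (splice Q ω out) (fun x hx => (splice_of_mem _ _ (hQ2 hx)).symm)
        show InL D Cd p j b (64 ^ u) xc (4 * 16 ^ (b + 2 * u + 1)) ω
        rw [h8]
        exact h1
      · exact absurd h2 (h1 k hk1 hk2)
    refine le_trans (measure_mono hsub) ?_
    refine le_trans (measure_union_le _ _) ?_
    have h2 : 2 * (((4 * 16 ^ (b + 2 * u + 1) : ℤ)) : ℝ) / 16 ^ b + 3 =
        8 * 16 ^ (2 * u + 1) + 3 := by
      push_cast
      rw [show b + 2 * u + 1 = b + (2 * u + 1) by ring, pow_add]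
      field_simp
      ring
    have h3 : (((64 ^ u : ℕ)) : ℝ) = 64 ^ u := by push_cast; rfl
    rw [h2, h3] at G1 L1
    have h4 : 2 * ((8 * 16 ^ (2 * u + 1) + 3) * Real.exp (-(64 ^ u))) =
        (8 * 16 ^ (2 * u + 1) + 3) * Real.exp (-(64 ^ u)) +
          (8 * 16 ^ (2 * u + 1) + 3) * Real.exp (-(64 ^ u)) := by ring
    rw [h4, ENNReal.ofReal_add (by positivity) (by positivity)]
    refine add_le_add ?_ ?_
    · rw [← ofReal_measureReal]
      exact ENNReal.ofReal_le_ofReal G1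
    · rw [← ofReal_measureReal]
      exact ENNReal.ofReal_le_ofReal L1

end Pool.Agent.H84.NT5.TH
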