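import Pool.Agent.H84.NT.Defs

/-!
# Near ties: targets, the anti-concentration estimate (E2)
-/

open MeasureTheory ProbabilityTheory
open scoped ENNReal

namespace Pool.Agent.H84.NT

set_option linter.unusedVariables false

open Pool.Agent.H99.NS Pool.Agent.H22.LPP Pool.Agent.H95.INS
open Pool.Agent.H84.GL (D_HW)

/-! ## General probability -/

/-- Harris inequality. -/
def T_HAR : Prop := ∀ (q : ℝ) (S : Finset Site) (f g : Env → ℝ), DepOn (S : Set Site) f →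
  DepOn (S : Set Site) g → Monotone f → Monotone g → (∃ C : ℝ, ∀ ω, |f ω| ≤ C) →
  (∃ C : ℝ, ∀ ω, |g ω| ≤ C) →
  (∫ ω, f ω ∂(PE q)) * ∫ ω, g ω ∂(PE q) ≤ ∫ ω, f ω * g ω ∂(PE q)

/-- Covariance with the indicator of an increasing event `H` depending on `R`, if on `F` every
resampling of `R` in `H` raises `Psi` from `≤ 1/2` to `1`. -/
def T_CVB : Prop := ∀ (q : ℝ) (S : Finset Site) (R : Set Site) (Psi : Env → ℝ) (H F : Set Env),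
  DepOn (S : Set Site) Psi → Monotone Psi → (∀ ω, 0 ≤ Psi ω ∧ Psi ω ≤ 1) →
  DepOn (S : Set Site) (fun ω => ω ∈ H) → DepOn R (fun ω => ω ∈ H) →
  (∀ ω ω' : Env, ω ≤ ω' → ω ∈ H → ω' ∈ H) →
  DepOn (S : Set Site) (fun ω => ω ∈ F) → (∀ ω ∈ F, Psi ω ≤ 1 / 2) →
  (∀ ω ∈ F, ∀ ω' : Env, (∀ x, x ∉ R → ω' x = ω x) → ω' ∈ H → Psi ω' = 1) →
  (PE q).real H / 2 * (PE q).real F ≤
    ∫ ω, H.indicator (fun _ => (1:ℝ)) ω * Psi ω ∂(PE q) -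
      (PE q).real H * ∫ ω, Psi ω ∂(PE q)

open Classical in
/-- Cauchy-Schwarz for the sum of indicators with finite range of dependence. -/
def T_VSU : Prop := ∀ (q : ℝ) (I : Finset (ℕ × ℤ)) (H : ℕ × ℤ → Set Env)
  (R : ℕ × ℤ → Set Site) (D : ℕ) (Psi : Env → ℝ), (∀ i ∈ I, MeasurableSet (H i)) →
  (∀ i ∈ I, DepOn (R i) (fun ω => ω ∈ H i)) →
  (∀ i ∈ I, (I.filter (fun j => ¬ Disjoint (R i) (R j))).card ≤ D) → Measurable Psi →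
  (∀ ω, 0 ≤ Psi ω ∧ Psi ω ≤ 1) →
  ∑ i ∈ I, (∫ ω, (H i).indicator (fun _ => (1:ℝ)) ω * Psi ω ∂(PE q) -
      (PE q).real (H i) * ∫ ω, Psi ω ∂(PE q)) ≤ √(D * I.card)

open Classical in
/-- Abstract anti-concentration. -/
def T_ABS : Prop := ∀ (q : ℝ) (S : Finset Site) (I : Finset (ℕ × ℤ)) (H F : ℕ × ℤ → Set Env)
  (R : ℕ × ℤ → Set Site) (D : ℕ) (p : ℝ) (Psi : Env → ℝ), 0 < p →
  DepOn (S : Set Site) Psi → Monotone Psi → (∀ ω, 0 ≤ Psi ω ∧ Psi ω ≤ 1) →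
  (∀ i ∈ I, DepOn (S : Set Site) (fun ω => ω ∈ H i) ∧ DepOn (R i) (fun ω => ω ∈ H i) ∧
    (∀ ω ω' : Env, ω ≤ ω' → ω ∈ H i → ω' ∈ H i) ∧ DepOn (S : Set Site) (fun ω => ω ∈ F i) ∧
    (∀ ω ∈ F i, Psi ω ≤ 1 / 2) ∧
    (∀ ω ∈ F i, ∀ ω' : Env, (∀ x, x ∉ R i → ω' x = ω x) → ω' ∈ H i → Psi ω' = 1) ∧
    p ≤ (PE q).real (H i)) →
  (∀ i ∈ I, (I.filter (fun j => ¬ Disjoint (R i) (R j))).card ≤ D) →
  ∑ i ∈ I, (PE q).real (F i) ≤ 2 / p * √(D * I.card)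

/-! ## The highway event has positive probability -/

/-- Crossing lower bound for general windows. -/
def I_G (q : ℝ) : Prop := ∀ (m R : ℕ), 1 ≤ m → 1 ≤ R → ∃ C c : ℝ, 0 < C ∧ 0 < c ∧
  ∃ k₀ : ℕ, 1 ≤ k₀ ∧ ∀ k : ℕ, k₀ ≤ k → ∀ s t : ℤ, t - s = m * 64 ^ (k - 1) →
  ∀ Y : ℝ, 0 ≤ Y → (PE q).real {ω | ∃ x y : ℤ, |x| ≤ R * 16 ^ k ∧ |y| ≤ R * 16 ^ k ∧
      Reach (s, x) (t, y) ∧ T ω (s, x) (t, y) < par q (s, x) (t, y) - Y * 4 ^ k} ≤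
    C * Real.exp (-(c * Y))

def T_GBL : Prop := B_BL → ∀ q : ℝ, 0 < q → q < 1 → I_G q

/-- Highway from `(-16 64^(k-1), 0)` to `(16 64^(k-1), 0)`. -/
def I_W (q : ℝ) : Prop := ∀ K : ℝ, 1 ≤ K → ∃ (p : ℝ) (k₀ : ℕ), 0 < p ∧ 1 ≤ k₀ ∧
  ∀ k : ℕ, k₀ ≤ k → p ≤ (PE q).real {ω | mu q * (32 * 64 ^ (k - 1)) + K * 4 ^ k ≤
    T ω (-(16 * 64 ^ (k - 1)), 0) (16 * 64 ^ (k - 1), 0)}

def T_HWK : Prop := D_HW → ∀ q : ℝ, 0 < q → q < 1 → I_W q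

/-- Deterministic part: two connectors and a highway give `HH`. -/
def T_HPD : Prop := ∀ (q K1 K2 K3 : ℝ) (Cd R : ℤ) (k : ℕ) (ω : Env), 0 < q → q < 1 → 1 ≤ k →
  0 ≤ K1 → 0 ≤ K2 → 0 ≤ Cd → 2 ≤ R → (Cd + 1) * 16 ^ k ≤ 16 * 64 ^ (k - 1) →
  K1 + 2 * K2 + 2 * sg q * (1 + ((Cd : ℝ) + 1) ^ 2) ≤ K3 →
  2 * (R : ℝ) < sg q / 3 * ((R : ℝ) - 1) ^ 2 →
  (∀ y : ℤ, |y| ≤ 16 ^ k → Reach (-lv k, y) (-(16 * 64 ^ (k - 1)), 0) →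
    par q (-lv k, y) (-(16 * 64 ^ (k - 1)), 0) - K2 * 4 ^ k ≤
      T ω (-lv k, y) (-(16 * 64 ^ (k - 1)), 0)) →
  mu q * (32 * 64 ^ (k - 1)) + K3 * 4 ^ k ≤
    T ω (-(16 * 64 ^ (k - 1)), 0) (16 * 64 ^ (k - 1), 0) →
  (∀ y : ℤ, |y| ≤ (Cd + 1) * 16 ^ k → Reach (16 * 64 ^ (k - 1), 0) (lv k, y) →
    par q (16 * 64 ^ (k - 1), 0) (lv k, y) - K2 * 4 ^ k ≤
      T ω (16 * 64 ^ (k - 1), 0) (lv k, y)) →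
  (∀ (s t : ℤ) (g : ℤ → ℤ), -lv k ≤ s → s ≤ t → t ≤ lv k → IsPath s t g →
    |g s| ≤ R * 16 ^ k → wt ω s t g ≤ sp q (64 ^ k / 50) s t g + R * 4 ^ k) →
  HH q K1 Cd R k ω

/-- Dependence and monotonicity of `HH`. -/
def T_HHD : Prop := ∀ (q K1 : ℝ) (Cd R : ℤ) (k : ℕ),
  DepOn (tube R k) (fun ω => HH q K1 Cd R k ω) ∧ (tube R k).Finite ∧
  ∀ ω ω' : Env, ω ≤ ω' → HH q K1 Cd R k ω → HH q K1 Cd R k ω'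

/-- The highway event has a positive probability, uniformly in the scale. -/
def I_H (q K1 : ℝ) (Cd : ℤ) : Prop := ∃ (p : ℝ) (R : ℤ) (k₀ : ℕ), 0 < p ∧ 2 ≤ R ∧ 1 ≤ k₀ ∧
  ∀ k : ℕ, k₀ ≤ k → p ≤ (PE q).real {ω | HH q K1 Cd R k ω}

def T_HPOS : Prop := ∀ q : ℝ, 0 < q → q < 1 → I_G q → I_W q → I_A q →
  ∀ (K1 : ℝ) (Cd : ℤ), 0 ≤ K1 → 0 ≤ Cd → I_H q K1 Cd

/-! ## Anti-concentration -/

/-- The deterministic step. -/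
def T_ACD : Prop := ∀ (q K1 : ℝ) (Cd R : ℤ) (k : ℕ) (ω ω1 : Env) (o e : Site) (s x : ℤ)
  (g : ℤ → ℤ), 1 ≤ k → Conn o e g → wt ω o.1 e.1 g = T ω o e → o.1 ≤ s → s + 64 ^ k ≤ e.1 →
  Even (g s - x) → |g s - x| ≤ 16 ^ k → |g (s + 64 ^ k) - x| ≤ (Cd + 1) * 16 ^ k →
  wt ω s (s + 64 ^ k) g ≤ par q (s, g s) (s + 64 ^ k, g (s + 64 ^ k)) + K1 / 2 * 4 ^ k →
  (∀ z : Site, z.1 ≤ s ∨ s + 64 ^ k < z.1 → ω1 z = ω z) →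
  HH q K1 Cd R k (shiftE (s + lv k, x) ω1) → T ω o e + K1 / 2 * 4 ^ k ≤ T ω1 o e

/-- The anti-concentration estimate: for every environment `out` outside of the box. -/
def I_AC (q : ℝ) : Prop := ∀ (K1 : ℝ) (Cd : ℤ), 0 < K1 → 0 ≤ Cd →
  ∃ (C : ℝ) (R : ℤ) (k₀ : ℕ), 0 < C ∧ 2 ≤ R ∧ 1 ≤ k₀ ∧
  ∀ (k n : ℕ) (W t0 c : ℤ) (o e : Site) (b0 g : ℝ) (out : Env), k₀ ≤ k → 1 ≤ n →
    2 * R + 4 ≤ W → Reach o e → o.1 ≤ t0 → t0 + n * 64 ^ k ≤ e.1 →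
    Even (o.1 + o.2 + t0 + c) → 0 < g → g ≤ K1 / 4 * 4 ^ k →
    (PE q).real {ω | ACev q K1 Cd k n W t0 c o e b0 g (splice (bx t0 c n k W) ω out)} ≤
      C * √((W : ℝ) / n)

def T_AC : Prop := ∀ q : ℝ, 0 < q → q < 1 →
  (∀ (K1 : ℝ) (Cd : ℤ), 0 ≤ K1 → 0 ≤ Cd → I_H q K1 Cd) → I_AC q

end Pool.Agent.H84.NT
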