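import Pool.Agent.H84.NT.Defs3

/-!
# Near ties: targets for the blocks (E3) and for the swap (E4)
-/

open MeasureTheory ProbabilityTheory
open scoped ENNReal

namespace Pool.Agent.H84.NT

set_option linter.unusedVariables false

open Pool.Agent.H99.NS Pool.Agent.H22.LPP Pool.Agent.H95.INS

/-! ## E3: blocks -/

/-- Exponential moments of the window suprema (`T` against the parabola of curvature `3/4`). -/
def T_ZEX : Prop := B_SUP → ∀ q : ℝ, 0 < q → q < 1 → ∃ C θ : ℝ, 1 ≤ C ∧ 0 < θ ∧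
  ∀ (b : ℕ) (s x x' : ℤ) (Z : Env → ℝ), Measurable Z →
    (∀ ω, Z ω = 0 ∨ ∃ y y' : ℤ, 16 ^ b * x ≤ y ∧ y < 16 ^ b * (x + 1) ∧ 16 ^ b * x' ≤ y' ∧
      y' < 16 ^ b * (x' + 1) ∧ Reach (s, y) (s + 64 ^ (b + 1), y') ∧
      Z ω = (T ω (s, y) (s + 64 ^ (b + 1), y') -
        parS q (3 / 4) (s, y) (s + 64 ^ (b + 1), y')) / 4 ^ b) →
    ∫⁻ ω, ENNReal.ofReal (Real.exp (θ * Z ω)) ∂(PE q) ≤ ENNReal.ofReal C

/-- The greedy bound for the blocks. -/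
def I_GRP (q CG : ℝ) : Prop := ∀ (p s0 i0 : ℤ) (b n : ℕ),
  (PE q).real {ω | ∃ g, IsPath s0 (s0 + n * 64 ^ (b + 1)) g ∧ wi p b (g s0) = i0 ∧
    CG * n ≤ GRs q p s0 b n ω g} ≤ Real.exp (-(n : ℝ))

def T_GRP : Prop := B_GR → T_ZEX → B_SUP → ∀ q : ℝ, 0 < q → q < 1 → ∃ CG : ℝ, 0 < CG ∧ I_GRP q CG

open Classical in
/-- Few bad blocks along any sequence of windows with square summable increments. -/
def T_PEI : Prop := B_GR → ∀ Cd : ℝ, 0 ≤ Cd → ∃ ε : ℝ, 0 < ε ∧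
  ∀ (q : ℝ) (H s0 i0 : ℤ) (n : ℕ) (Bd : ℕ → ℤ → Env → Prop), 0 < H →
    (∀ l i, MeasurableSet {ω | Bd l i ω}) →
    (∀ (l : ℕ) (i : ℤ), DepOn (slab (s0 + l * H) (s0 + (l + 1) * H)) (Bd l i)) →
    (∀ l i, (PE q).real {ω | Bd l i ω} ≤ ε) →
    (PE q).real {ω | ∃ x : ℕ → ℤ, x 0 = i0 ∧
      ∑ l ∈ Finset.range n, ((x (l + 1) - x l : ℤ) : ℝ) ^ 2 ≤ Cd * n ∧
      (n : ℝ) ≤ 8 * (((Finset.range n).filter (fun l => Bd l (x l) ω)).card : ℝ) ∧ 1 ≤ n} ≤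
    Real.exp (-(n : ℝ))

/-- Deterministic consequences of the greedy bound. -/
def T_BLK : Prop := ∀ q CG : ℝ, 0 < q → q < 1 → 0 ≤ CG → ∃ Cd : ℝ, 0 < Cd ∧
  ∀ (ω : Env) (g : ℤ → ℤ) (p s0 : ℤ) (b n : ℕ), IsPath s0 (s0 + n * 64 ^ (b + 1)) g →
    mu q * (n * 64 ^ (b + 1)) - n * 4 ^ b ≤ wt ω s0 (s0 + n * 64 ^ (b + 1)) g →
    GRs q p s0 b n ω g ≤ CG * n →
    ∑ l ∈ Finset.range n, ((g (sb s0 b l + 64 ^ (b + 1)) - g (sb s0 b l) : ℤ) : ℝ) ^ 2 ≤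
      Cd * n * 256 ^ b ∧
    ∑ l ∈ Finset.range n, ((dwi p b (sb s0 b l) g : ℤ) : ℝ) ^ 2 ≤ Cd * n ∧
    ∑ l ∈ Finset.range n, exl q b ω (sb s0 b l) g ≤ Cd * n

open Classical in
/-- Half of the blocks are fine. -/
def T_FIC : Prop := ∀ q Cd : ℝ, 0 < q → q < 1 → 0 < Cd → ∃ (K1 : ℝ) (Cf : ℤ), 1 ≤ K1 ∧ 0 ≤ Cf ∧
  ∀ (ω : Env) (g : ℤ → ℤ) (s0 : ℤ) (b n : ℕ),
    ∑ l ∈ Finset.range n, ((g (sb s0 b l + 64 ^ (b + 1)) - g (sb s0 b l) : ℤ) : ℝ) ^ 2 ≤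
      Cd * n * 256 ^ b →
    ∑ l ∈ Finset.range n, exl q b ω (sb s0 b l) g ≤ Cd * n →
    n ≤ 2 * ((Finset.range n).filter
      (fun l : ℕ => Fine q K1 Cf (b + 1) ω (s0 + l * 64 ^ (b + 1)) g)).card

/-! ## Local goodness has large probability -/

/-- Upper bounds for all paths with soft time `8 n / 100`. -/
def O1X (D : Dat) (ω : Env) : Prop :=
  ∀ s t g, -(256 * D.n) ≤ s → s ≤ t → t ≤ 256 * D.n → IsPath s t g →
    wt ω s t g ≤ sp D.q (8 * D.n / 100) s t g +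
      D.K * D.f * (1 + max |(g s : ℝ)| |(g t : ℝ)| / D.w)

def T_O1P : Prop := B_BA → ∀ q : ℝ, 0 < q → q < 1 → ∀ ε : ℝ, 0 < ε → ∃ K1 : ℝ, 0 ≤ K1 ∧
  ∀ (k : ℕ) (A X : ℤ) (K B H Y : ℝ), 1 ≤ k → K1 ≤ K →
    (PE q).real {ω | ¬ O1X (dat q k A K B H Y X) ω} ≤ ε

def T_O2P : Prop := B_BL → ∀ q : ℝ, 0 < q → q < 1 → ∀ ε : ℝ, 0 < ε → ∃ K1 : ℝ, 0 ≤ K1 ∧
  ∀ (k : ℕ) (A X : ℤ) (K B H Y : ℝ), 1 ≤ k → K1 ≤ K → (4 * X : ℝ) ≤ 16 ^ k * 2 ^ ((k : ℝ) / 4) →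
    (PE q).real {ω | ¬ O2 (dat q k A K B H Y X) ω} ≤ ε

/-- The bounds for the cut environment (deterministic). -/
def T_O2C : Prop := ∀ (D : Dat) (ω : Env), D.Ok → O1X D ω → O2 D ω →
  O1 D (cutS D ω) ∧ O2 D (cutS D ω)

/-- Dependence of the local goodness. -/
def T_LGD : Prop := ∀ D : Dat, D.Ok →
  DepOn {x : Site | -(256 * D.n) < x.1 ∧ x.1 ≤ 256 * D.n ∧ |x.2| < 2 * D.X} (LG0 D) ∧
  {x : Site | -(256 * D.n) < x.1 ∧ x.1 ≤ 256 * D.n ∧ |x.2| < 2 * D.X}.Finite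

/-- Constants of the small scale. -/
def I_LG (q ε B : ℝ) : Prop := ∃ (A : ℤ) (K H Y : ℝ) (p₀ : ℝ≥0∞) (k₀ : ℕ), 40 ≤ A ∧
  0 < p₀ ∧ 1 ≤ k₀ ∧ 1 ≤ H ∧ ∀ (k : ℕ) (X : ℤ), k₀ ≤ k → 16 * A * 16 ^ k ≤ X →
    (4 * X : ℝ) ≤ 16 ^ k * 2 ^ ((k : ℝ) / 4) →
    let D := dat q k A K B H Y X
    D.Ok ∧ A * 16 ^ k ≤ 32 * 64 ^ (k - 1) ∧ p₀ ≤ pH D ∧ PE q {ω | ¬ LO D ω} ≤ 1 / 100 ∧
    (PE q).real {ω | ¬ LG0 D ω} ≤ ε

def T_LGP : Prop := T_O1P → T_O2P → T_O2C → T_PRB → B_BA → B_BL → ∀ q cs : ℝ, 0 < q → q < 1 →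
  0 < cs → I_A q → I_C q → I_B q → I_S q cs → I_L q cs → ∀ ε B : ℝ, 0 < ε → 0 ≤ B → I_LG q ε B

/-! ## E4: the localised insertion lemma (deterministic) -/

/-- Facts on the cut environment. -/
def T_CUT : Prop := ∀ (D : Dat) (ω ω' : Env), D.Ok →
  (cutS D ω ≤ ω) ∧ (∀ u v, T (cutS D ω) u v ≤ T ω u v) ∧
  (∀ s t g, wt (cutS D ω) s t g ≤ wt ω s t g) ∧
  (∀ s t g, (∀ r, s < r → r ≤ t → -(256 * D.n) < r → r ≤ 256 * D.n → |g r| < 2 * D.X) →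
    wt (cutS D ω) s t g = wt ω s t g) ∧
  (Agree D ω ω' → Agree D (cutS D ω) (cutS D ω')) ∧
  (Ev D ω → Ev D (cutS D ω)) ∧
  (∀ o e c g, InT D (2 * D.X) g → Near ω o e c g → Near (cutS D ω) o e c g) ∧
  (∀ o e g, InT D (2 * D.X) g → Conn o e g → Reach o e → wt ω o.1 e.1 g = T ω o e →
    T (cutS D ω) o e = T ω o e)

/-- Excursions out of the tube lose a lot (old environment). -/
def EXC (D : Dat) (ω' : Env) : Prop :=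
  ∀ r1 r2 g, -(4 * D.n) ≤ r1 → r1 ≤ r2 → r2 ≤ 4 * D.n → IsPath r1 r2 g →
    |g r1| ≤ D.A * D.w → |g r2| ≤ D.A * D.w → (∃ r, r1 ≤ r ∧ r ≤ r2 ∧ 2 * D.X ≤ |g r|) →
    wt ω' r1 r2 g ≤ mu D.q * ((r2 - r1 : ℤ) : ℝ) - D.Y * D.f

def T_EXC : Prop := ∀ (D Da : Dat) (z : Site) (ω' : Env), Rel D Da z → O1S Da (shiftE z ω') →
  EXC D ω'

/-- Upper bound between two visits of the strip of the small box (new environment). -/
def T_CLA : Prop := ∀ (D : Dat) (ω ω' : Env), D.Ok → Agree D ω ω' → Ev D ω →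
  O1 D (cutS D ω') → EXC D ω' →
  ∀ s t g, -(4 * D.n) ≤ s → s ≤ t → t ≤ 4 * D.n → IsPath s t g → |g s| ≤ D.A * D.w →
    |g t| ≤ D.A * D.w → wt ω s t g ≤ mu D.q * ((t - s : ℤ) : ℝ) + D.Y * D.f

/-- Crude upper bound at the large scale for the new environment. -/
def T_CUA : Prop := ∀ (D Da : Dat) (z : Site) (ω ω' : Env), Rel D Da z → Agree D ω ω' →
  (∀ s t g, -(4 * D.n) ≤ s → s ≤ t → t ≤ 4 * D.n → IsPath s t g → |g s| ≤ D.A * D.w →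
    |g t| ≤ D.A * D.w → wt ω s t g ≤ mu D.q * ((t - s : ℤ) : ℝ) + D.Y * D.f) →
  O1S Da (shiftE z ω') → CU Da (shiftE z ω)

/-- Near optimal paths of the new environment touch the box and stay in the tube. -/
structure TubC (D : Dat) (ω ω' : Env) (o e : Site) : Prop where
  up : T ω' o e + (1993 / 1000) * D.H * D.f ≤ T ω o e
  te : T (cutS D ω) o e = T ω o e
  tt : T (cutS D ω') o e = T ω' o e
  st : ∀ g, Near ω o e (14 * D.H * D.f / 1000) g → InT D D.X g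

def T_TUB : Prop := ∀ (D Da : Dat) (z : Site) (ω ω' : Env) (o e : Site),
  Loc D Da z ω ω' o e → TubC D ω ω' o e

/-- The localised insertion lemma. -/
structure InlC (D : Dat) (ω ω' : Env) (o e : Site) : Prop where
  la : |Lam ω o e 0| < D.A * D.w
  me : ∀ g g', Near ω o e (14 * D.H * D.f / 1000) g → Near ω o e (14 * D.H * D.f / 1000) g' →
    ∃ r, -(256 * D.n) < r ∧ r ≤ 256 * D.n ∧ g r = g' r
  re : ∀ γ, Near ω' o e (D.H * D.f / 1000) γ → |(γ (-(256 * D.n)) : ℝ)| ≤ D.B * D.w →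
    |(γ (256 * D.n) : ℝ)| ≤ D.B * D.w → InT D (2 * D.X) γ →
    ∃ g, Near ω o e (14 * D.H * D.f / 1000) g ∧ (∀ r ≤ -(256 * D.n), g r = γ r) ∧
      (∀ r, 256 * D.n ≤ r → g r = γ r)

def T_INL : Prop := ∀ (D Da : Dat) (z : Site) (ω ω' : Env) (o e : Site),
  Loc D Da z ω ω' o e → InlC D ω ω' o e

/-! ## E4: the swap (probability) -/

/-- The event `Ev` alone. -/
def T_EVP : Prop := ∀ (D : Dat) (out : Env), D.Ok → D.A * D.w ≤ 4 * D.n → FC D out →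
  PE D.q {ω | ¬ LO D ω} ≤ 1 / 100 → pH D ^ 2 / 2 ≤ Pin D out (fun ω => Ev D ω)

/-- One block. -/
def T_SW1 : Prop := ∀ (D Da : Dat) (z : Site) (J1 J2 : ℤ) (ω : Env) (o e : Site),
  D.A * D.w ≤ 4 * D.n → PE D.q {ω | ¬ LO D ω} ≤ 1 / 100 → SwG D Da z J1 J2 ω o e →
  pH D ^ 2 / 4 ≤ PE D.q {ω1 | DE D J1 J2 (splice (Bx D) ω1 ω) o e ∧
    |Lam (splice (Bx D) ω1 ω) o e 0| < D.A * D.w}

/-- Averaging over the environment of a set of sites. -/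
def T_SWG : Prop := ∀ (q : ℝ) (S : Finset Site) (Q : Set Site) (G E : Env → Prop) (p : ℝ≥0∞),
  DepOn (S : Set Site) G → DepOn (S : Set Site) E →
  (∀ ω, G ω → p ≤ PE q {ω1 | E (splice Q ω1 ω)}) →
  p * PE q {ω | G ω} ≤ PE q {ω | E ω}

/-- Finite dependence of the swap event, uniformly in the position of the large centre. -/
def T_SWD : Prop := ∀ (D Da : Dat) (o e : Site) (z1 J1 J2 : ℤ), Reach o e → ∃ S : Finset Site,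
  (∀ y : ℤ, DepOn (S : Set Site) (fun ω => SwG D Da (z1, y) J1 J2 ω o e)) ∧
  DepOn (S : Set Site) (fun ω => DE D J1 J2 ω o e ∧ |Lam ω o e 0| < D.A * D.w)

/-- The events `DE` of different blocks are disjoint. -/
def T_DED : Prop := ∀ (D : Dat) (ω : Env) (o e : Site) (J1 J2 c c' : ℤ) (x x' : ℤ), 0 < D.n →
  J1 ≤ c - 256 * D.n → c + 256 * D.n ≤ J2 → J1 ≤ c' - 256 * D.n → c' + 256 * D.n ≤ J2 →
  512 * D.n ≤ |c - c'| →
  ¬ (DE D (J1 - c) (J2 - c) (shiftE (c, x) ω) (o - (c, x)) (e - (c, x)) ∧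
    DE D (J1 - c') (J2 - c') (shiftE (c', x') ω) (o - (c', x')) (e - (c', x')))

open Classical in
/-- Sum over the blocks and over the positions: the expected number of blocks which are ready
for the swap is bounded (`c l` is the centre of the block `l`, `j'` the level of the large
centre). -/
def T_SWS : Prop := ∀ (D Da : Dat) (o e : Site) (s0 x0 j' : ℤ) (n : ℕ) (I : Finset ℤ), D.Ok →
  D.A * D.w ≤ 4 * D.n → PE D.q {ω | ¬ LO D ω} ≤ 1 / 100 → Reach o e → 1 ≤ n →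
  ∀ c : ℕ → ℤ, (∀ l : ℕ, c l = s0 + (512 * l + 256) * D.n) →
  PE D.q {ω | (n : ℝ) ≤ 2 * (((Finset.range n).filter (fun l : ℕ => ∃ i ∈ I, ∃ y : ℤ,
      SwG D Da (j' - c l, y) (s0 - c l) (s0 + 512 * n * D.n - c l)
        (shiftE (c l, x0 + D.w * i) ω) (o - (c l, x0 + D.w * i))
        (e - (c l, x0 + D.w * i)))).card : ℝ)} ≤
    ENNReal.ofReal (16 * D.A / n) / pH D ^ 2

end Pool.Agent.H84.NT
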