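import Pool.Agent.H84.NT.Defs5

/-!
# Near ties: targets of the assembly (E5, E6)
-/

open MeasureTheory ProbabilityTheory
open scoped ENNReal

namespace Pool.Agent.H84.NT5

set_option linter.unusedVariables false

open Pool.Agent.H99.NS Pool.Agent.H22.LPP Pool.Agent.H95.INS Pool.Agent.H76.ND Pool.Agent.H95.ND
open Pool.Agent.H84.NT hiding lv two_lv
open Pool.Agent.H84.GL (D_LT)

/-! ## Inputs -/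

/-- PALM for one environment from PALM for pairs. -/
def T_P1 : Prop := ∀ (c : Cst) (M : ℝ), PALMs c M → P1s c M

/-- Crude regularity of the near geodesics. -/
def I_RGN (q : ℝ) : Prop := ∃ C c' : ℝ, 0 < C ∧ 0 < c' ∧ ∃ K₁ : ℕ, ∀ K : ℕ, K₁ ≤ K →
  PE q {ω | ¬ RGk K ω} ≤ ENNReal.ofReal (C * Real.exp (-Real.exp (c' * K)))

def T_RGN : Prop := B_CR → B_REG → ∀ q : ℝ, 0 < q → q < 1 → I_RGN q

/-- Near geodesics do not leave the strip `|x| ≤ D 16^K`. -/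
def I_TOPN (q : ℝ) : Prop := ∃ C c : ℝ, 0 < C ∧ 0 < c ∧ ∀ (K : ℕ) (D : ℝ), 1 ≤ K → 1 ≤ D →
  PE q {ω | ¬ TOPk D K ω} ≤ ENNReal.ofReal (C * Real.exp (-(c * D)))

def T_TOPN : Prop := B_SUP → D_LT → ∀ q : ℝ, 0 < q → q < 1 → I_TOPN q

/-! ## Regularity at the core scale -/

/-- Norms of the core in the environment shifted laterally. -/
def T_SHF : Prop := ∀ (q K0 : ℝ) (Xc Xc' x0 : ℤ) (a I k : ℕ) (ω : Env), 0 ≤ K0 → 1 ≤ a →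
  a ≤ k → k ≤ I → |x0| ≤ 8 * 16 ^ k → 0 ≤ Xc' → Xc' + 8 ≤ Xc → GN q K0 Xc a I k ω →
  GN q (9 * K0 * (101 / 100) ^ (k - a)) Xc' a a a (shiftE (0, x0) ω)

/-- From the path bound with soft time `3/1000` to `O1S`. -/
def T_O1W : Prop := ∀ q : ℝ, 0 < q → q < 1 → ∃ C : ℝ, 0 < C ∧
  ∀ (D : Dat) (a : ℕ) (K1 : ℝ) (ω : Env), 1 ≤ a → 1 ≤ K1 → D.q = q → D.n = 8 * 64 ^ (a - 1) →
    D.w = 16 ^ a → D.f = 4 ^ a → C * K1 ^ 2 ≤ D.K →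
    PB3 (fwd ω) q (16 ^ a) (3 / 1000 * 64 ^ a) (4 * K1 * 4 ^ a) (-lv (a + 1)) (lv (a + 1)) →
    O1S D ω

/-- Goodness of some scale gives the regularity of the core. -/
def T_OR : Prop := ∀ q : ℝ, 0 < q → q < 1 → ∃ Cκ : ℝ, 1 ≤ Cκ ∧
  ∀ (c : Cst) (K a a1 d k : ℕ) (j w : ℤ) (D : ℝ) (ω : Env), c.q = q → 1 ≤ c.K0 → 1 ≤ a →
    K ≤ 40 * a → a ≤ a1 → a1 ≤ k → k ≤ a + d → k + 2 ≤ K → |j| ≤ 20 * 64 ^ (K - 1) →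
    64 ≤ Xf K → 4 * Xf K ≤ 4 ^ a → goodAt c (Xf K) a (K - 2) k (zc j a1 w) ω → RGk K ω →
    TOPk D K ω → 0 ≤ D → 64 * D * (3 / 8) ^ (K - 2 - a) ≤ 1 → LK K ω j ∈ win a1 w →
    OReg q (kp Cκ c.K0 d) ((Xf K - 16) * 16 ^ a) a a1 K j ω

/-! ## Local events in the tube -/

/-- Probability and dependence of `InG`. -/
def T_ING : Prop := ∀ (q CG : ℝ), I_GRP q CG → ∀ (p s0 : ℤ) (b n : ℕ) (xc V : ℤ), 0 ≤ V →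
  (PE q).real {ω | InG q CG p s0 b n xc V ω} ≤ (2 * V / 16 ^ b + 3) * Real.exp (-(n : ℝ)) ∧
  DepOn {x : Site | s0 < x.1 ∧ x.1 ≤ s0 + n * 64 ^ (b + 1) ∧ |x.2 - xc| ≤ V}
    (InG q CG p s0 b n xc V) ∧
  {x : Site | s0 < x.1 ∧ x.1 ≤ s0 + n * 64 ^ (b + 1) ∧ |x.2 - xc| ≤ V}.Finite

open Classical in
/-- Probability and dependence of `InL` (`ε` is the constant of `T_PEI` for `Cd`). -/
def T_INT : Prop := T_PEI → T_LGD → B_GR → ∀ Cd : ℝ, 0 ≤ Cd → ∃ ε : ℝ, 0 < ε ∧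
  ∀ (q : ℝ) (b : ℕ) (A X : ℤ) (K B H Y : ℝ) (p s0 : ℤ) (n : ℕ) (xc V : ℤ), 1 ≤ b → 0 ≤ V →
  (dat q b A K B H Y X).Ok → (PE q).real {ω | ¬ LG0 (dat q b A K B H Y X) ω} ≤ ε →
  (PE q).real {ω | InL (dat q b A K B H Y X) Cd p s0 b n xc V ω} ≤
    (2 * V / 16 ^ b + 3) * Real.exp (-(n : ℝ)) ∧
  DepOn {x : Site | s0 < x.1 ∧ x.1 ≤ s0 + n * 64 ^ (b + 1) ∧ |x.2 - xc| ≤ V + 16 ^ b + 2 * X}
    (InL (dat q b A K B H Y X) Cd p s0 b n xc V) ∧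
  {x : Site | s0 < x.1 ∧ x.1 ≤ s0 + n * 64 ^ (b + 1) ∧
    |x.2 - xc| ≤ V + 16 ^ b + 2 * X}.Finite

/-! ## Thin near ties -/

/-- Constants of the large scale. -/
def T_DAC : Prop := ∀ q : ℝ, 0 < q → q < 1 → ∃ C2 : ℝ, 1 ≤ C2 ∧ ∀ κ : ℝ, 1 ≤ κ → sg q ≤ κ →
  ∃ A : ℤ, Even A ∧ 2 * κ + 2 ≤ A ∧ (A : ℝ) ≤ C2 * κ ∧ ∀ (a : ℕ) (X : ℤ), 1 ≤ a →
    16 * A * 16 ^ a ≤ X → X + A * 16 ^ a ≤ 32 * 64 ^ a →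
    (dat q a A κ κ (sg q * A ^ 2 / 4) (sg q * A ^ 2 / 4) X).Ok

/-- The global condition at the large scale. -/
def T_RRA : Prop := ∀ (q : ℝ) (K a : ℕ) (A X j y : ℤ) (κ κ' H Y : ℝ) (ω : Env), K ≤ 40 * a →
  1 ≤ a → a + 1 ≤ K → RGk K ω → |j| ≤ 20 * 64 ^ (K - 1) → 14 * H / 1000 ≤ 4 ^ (K / 2000) →
  2 * A * 16 ^ a + Xf K * 16 ^ a ≤ 2 * X →
  RR (dat q a A κ κ' H Y X) (shiftE (j, y) ω) (oK K - (j, y)) (eK K - (j, y))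

/-- One good block is ready for the swap. -/
def T_SGB : Prop := ∀ (q κ Ks B H Y : ℝ) (K a b a1 : ℕ) (A Aa Xb Xa j s x : ℤ) (Cdd : ℤ)
  (ω : Env) (γ : ℤ → ℤ),
  let D := dat q b A Ks B H Y Xb
  let Da := dat q a Aa κ κ (sg q * Aa ^ 2 / 4) (sg q * Aa ^ 2 / 4) Xa
  let m := s + 32 * 64 ^ b
  0 < q → q < 1 → D.Ok → Da.Ok → 1 ≤ b → b + 2 ≤ a → a ≤ a1 → K ≤ 40 * a → a + 2 ≤ K →
  |j| ≤ 20 * 64 ^ (K - 1) → 1 ≤ κ → sg q ≤ κ → 2 * κ + 2 ≤ Aa → Xb = 20 * Aa * 16 ^ a →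
  3 * Xb ≤ Xa → 6400 * A * 16 ^ b ≤ 16 ^ a → 4 * Y * 4 ^ b ≤ sg q * Aa ^ 2 / 4 * 4 ^ a →
  0 ≤ Cdd → (Cdd : ℝ) + 2 ≤ B → H * 4 ^ b / 1000 ≤ 4 ^ a →
  κ * 16 ^ a + 16 ^ b ≤ 6 * 16 ^ a1 →
  OReg q κ Xa a a1 K j ω →
  j - lv a ≤ s → s + 64 ^ (b + 1) ≤ j + lv a → Even (LK K ω s - x) → x ≤ LK K ω s →
  LK K ω s < x + 16 ^ b → |LK K ω (s + 64 ^ (b + 1)) - LK K ω s| ≤ Cdd * 16 ^ b →
  LG0 D (shiftE (m, x) ω) →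
  PE q {ω1 | ¬ RR Da (shiftE (j - m, LK K ω j - x) (splice (Bx D) ω1 (shiftE (m, x) ω)))
    (oK K - (m, x) - (j - m, LK K ω j - x)) (eK K - (m, x) - (j - m, LK K ω j - x))} ≤
      pH D ^ 2 / 4 →
  Near ω (oK K) (eK K) (H * 4 ^ b / 1000) γ →
  (∀ t, j - lv a ≤ t → t ≤ j + lv a → γ t ≠ LK K ω t) →
  |γ (j - lv a) - LK K ω (j - lv a)| ≤ 16 ^ b → |γ s - LK K ω s| ≤ 16 ^ b →
  |γ (s + 64 ^ (b + 1)) - LK K ω (s + 64 ^ (b + 1))| ≤ 16 ^ b →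
  SwG D Da (j - m, LK K ω j - x) (j - lv a - m) (j + lv a - m) (shiftE (m, x) ω)
    (oK K - (m, x)) (eK K - (m, x))

/-- Thin near ties. -/
def T_THN : Prop := ∀ q : ℝ, 0 < q → q < 1 → PP q 10 → (∃ CG : ℝ, 0 < CG ∧ I_GRP q CG) →
  (∀ ε B : ℝ, 0 < ε → 0 ≤ B → I_LG q ε B) → I_RGN q → I_TOPN q → I_THIN q

/-! ## Fat near ties -/

def T_FTN : Prop := ∀ q : ℝ, 0 < q → q < 1 → PP q 10 → (∃ CG : ℝ, 0 < CG ∧ I_GRP q CG) →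
  I_AC q → I_RGN q → I_TOPN q → I_FATN q

/-! ## Conclusion -/

def T_NTF : Prop := ∀ q : ℝ, 0 < q → q < 1 → I_THIN q → I_FATN q → Pool.Agent.H97.ST.I_NT q

end Pool.Agent.H84.NT5
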